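import Mathlib

/-!
# The triangle wave and the Takagi-type function `kf`
-/

namespace Pool.Agent.R634.CRem

/-- The triangle wave of period `2`: the distance of `x` to the even integers. -/
noncomputable def tri (x : ℝ) : ℝ := |x - 2 * (round (x / 2) : ℤ)|

lemma tri_nonneg (x : ℝ) : 0 ≤ tri x := abs_nonneg _

lemma tri_le_dist (x : ℝ) (z : ℤ) : tri x ≤ |x - 2 * z| := by
  have h := round_le (x / 2) z
  unfold tri
  have e1 : x - 2 * ((round (x / 2) : ℤ) : ℝ) = 2 * (x / 2 - (round (x / 2) : ℤ)) := by ring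
  have e2 : x - 2 * (z : ℝ) = 2 * (x / 2 - z) := by ring
  rw [e1, e2, abs_mul, abs_mul]
  have : (0:ℝ) ≤ |2| := abs_nonneg _
  exact mul_le_mul_of_nonneg_left h this

lemma tri_le_one (x : ℝ) : tri x ≤ 1 := by
  have h := abs_sub_round (x / 2)
  unfold tri
  have e1 : x - 2 * ((round (x / 2) : ℤ) : ℝ) = 2 * (x / 2 - (round (x / 2) : ℤ)) := by ring
  rw [e1, abs_mul, abs_of_pos (by norm_num : (0:ℝ) < 2)]
  linarith

lemma tri_sub_le (x y : ℝ) : tri x - tri y ≤ |x - y| := by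
  have h := tri_le_dist x (round (y / 2))
  have h2 : |x - 2 * ((round (y / 2) : ℤ) : ℝ)| ≤ |x - y| + |y - 2 * ((round (y / 2) : ℤ) : ℝ)| := by
    have := abs_add_le (x - y) (y - 2 * ((round (y / 2) : ℤ) : ℝ))
    simpa using this
  have : tri y = |y - 2 * ((round (y / 2) : ℤ) : ℝ)| := rfl
  linarith

lemma abs_tri_sub_le (x y : ℝ) : |tri x - tri y| ≤ |x - y| := by
  rw [abs_sub_le_iff]
  refine ⟨tri_sub_le x y, ?_⟩
  rw [abs_sub_comm]
  exact tri_sub_le y x

lemma tri_near_even {x : ℝ} {j : ℤ} (h : |x - 2 * j| ≤ 1) : tri x = |x - 2 * j| := by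
  apply le_antisymm (tri_le_dist x j)
  unfold tri
  by_cases hz : round (x / 2) = j
  · rw [hz]
  · have h1 : (1:ℝ) ≤ |((round (x / 2) : ℤ) : ℝ) - j| := by
      have : (1:ℤ) ≤ |round (x / 2) - j| := Int.one_le_abs (sub_ne_zero.mpr hz)
      exact_mod_cast this
    have h2 : |2 * (((round (x / 2) : ℤ) : ℝ) - j)| ≤ |x - 2 * j| + |x - 2 * ((round (x / 2) : ℤ) : ℝ)| := by
      have := abs_sub (x - 2 * (j:ℝ)) (x - 2 * ((round (x / 2) : ℤ) : ℝ))
      have e : (x - 2 * (j:ℝ)) - (x - 2 * ((round (x / 2) : ℤ) : ℝ))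
        = 2 * (((round (x / 2) : ℤ) : ℝ) - j) := by ring
      rw [e] at this
      exact this
    rw [abs_mul, abs_of_pos (by norm_num : (0:ℝ) < 2)] at h2
    linarith

lemma tri_even (j : ℤ) : tri (2 * j) = 0 := by
  rw [tri_near_even (j := j) (by simp)]
  simp

/-- affine on `[j, j+1]` for even `j` -/
lemma tri_up {x : ℝ} {j : ℤ} (h1 : 2 * (j:ℝ) ≤ x) (h2 : x ≤ 2 * j + 1) : tri x = x - 2 * j := by
  rw [tri_near_even (j := j) (by rw [abs_le]; constructor <;> linarith), abs_of_nonneg (by linarith)]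

/-- affine on `[j, j+1]` for odd `j` -/
lemma tri_down {x : ℝ} {j : ℤ} (h1 : 2 * (j:ℝ) + 1 ≤ x) (h2 : x ≤ 2 * j + 2) :
    tri x = 2 * j + 2 - x := by
  rw [tri_near_even (j := j + 1) (by push_cast; rw [abs_le]; constructor <;> linarith)]
  push_cast
  rw [abs_of_nonpos (by linarith)]
  ring

/-- on each unit interval `[j, j+1]` the triangle wave is affine with slope `±1` -/
lemma tri_affine (j : ℤ) : ∃ σ : ℝ, (σ = 1 ∨ σ = -1) ∧
    ∀ x y : ℝ, (j:ℝ) ≤ x → x ≤ j + 1 → (j:ℝ) ≤ y → y ≤ j + 1 → tri x - tri y = σ * (x - y) := by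
  rcases Int.even_or_odd' j with ⟨i, rfl | rfl⟩
  · refine ⟨1, Or.inl rfl, fun x y h1 h2 h3 h4 => ?_⟩
    push_cast at h1 h2 h3 h4
    rw [tri_up h1 h2, tri_up h3 h4]
    ring
  · refine ⟨-1, Or.inr rfl, fun x y h1 h2 h3 h4 => ?_⟩
    push_cast at h1 h2 h3 h4
    rw [tri_down h1 (by linarith), tri_down h3 (by linarith)]
    ring

/-- The Takagi-type function `k(x) = ∑ 12⁻ⁿ tri(4ⁿ x)`. -/
noncomputable def kf (x : ℝ) : ℝ := ∑' n : ℕ, (1 / 12 : ℝ) ^ n * tri (4 ^ n * x)

lemma summable_kf (x : ℝ) : Summable fun n : ℕ => (1 / 12 : ℝ) ^ n * tri (4 ^ n * x) := by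
  have h : Summable fun n : ℕ => (1 / 12 : ℝ) ^ n :=
    summable_geometric_of_lt_one (by norm_num) (by norm_num)
  refine Summable.of_nonneg_of_le (fun n => ?_) (fun n => ?_) h
  · exact mul_nonneg (by positivity) (tri_nonneg _)
  · exact mul_le_of_le_one_right (by positivity) (tri_le_one _)

lemma kf_nonneg (x : ℝ) : 0 ≤ kf x :=
  tsum_nonneg fun n => mul_nonneg (by positivity) (tri_nonneg _)

lemma kf_rec (x : ℝ) : kf x = tri x + 1 / 12 * kf (4 * x) := by
  have h := (summable_kf x).tsum_eq_zero_add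
  unfold kf
  rw [h]
  simp only [pow_zero, one_mul]
  congr 1
  rw [← tsum_mul_left]
  congr 1
  ext n
  rw [pow_succ, pow_succ]
  ring_nf

lemma abs_kf_sub_le (x y : ℝ) : |kf x - kf y| ≤ 3 / 2 * |x - y| := by
  unfold kf
  rw [← (summable_kf x).tsum_sub (summable_kf y)]
  have hs : Summable fun n : ℕ => (1 / 3 : ℝ) ^ n * |x - y| :=
    (summable_geometric_of_lt_one (by norm_num) (by norm_num)).mul_right _
  have hterm : ∀ n : ℕ, ‖(1 / 12 : ℝ) ^ n * tri (4 ^ n * x) - (1 / 12 : ℝ) ^ n * tri (4 ^ n * y)‖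
      ≤ (1 / 3 : ℝ) ^ n * |x - y| := by
    intro n
    rw [← mul_sub, Real.norm_eq_abs, abs_mul, abs_of_pos (by positivity : (0:ℝ) < (1/12)^n)]
    calc (1 / 12 : ℝ) ^ n * |tri (4 ^ n * x) - tri (4 ^ n * y)|
        ≤ (1 / 12 : ℝ) ^ n * |4 ^ n * x - 4 ^ n * y| :=
          mul_le_mul_of_nonneg_left (abs_tri_sub_le _ _) (by positivity)
      _ = (1 / 12 : ℝ) ^ n * (4 ^ n * |x - y|) := by
          rw [← mul_sub, abs_mul, abs_of_pos (by positivity : (0:ℝ) < 4 ^ n)]
      _ = (1 / 3 : ℝ) ^ n * |x - y| := by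
          rw [← mul_assoc, ← mul_pow]; norm_num
  have := tsum_of_norm_bounded hs.hasSum hterm
  rw [Real.norm_eq_abs] at this
  refine this.trans (le_of_eq ?_)
  rw [tsum_mul_right, tsum_geometric_of_lt_one (by norm_num) (by norm_num)]
  norm_num

lemma lipschitz_kf : LipschitzWith 2 kf := by
  apply LipschitzWith.of_dist_le_mul
  intro x y
  rw [Real.dist_eq, Real.dist_eq]
  have := abs_kf_sub_le x y
  have h2 := abs_nonneg (x - y)
  push_cast
  linarith

lemma continuous_kf : Continuous kf := lipschitz_kf.continuous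

lemma kf_even (j : ℤ) : kf (2 * j) = 0 := by
  unfold kf
  convert tsum_zero with n
  have : (4:ℝ) ^ n * (2 * j) = 2 * ((4 ^ n * j : ℤ) : ℝ) := by push_cast; ring
  rw [this, tri_even, mul_zero]

/-- the tip property at integers -/
lemma tip_int (j : ℤ) : ∃ s : ℝ, (s = 1 ∨ s = -1) ∧ ∀ x : ℝ, |x - j| ≤ 1 →
    1 / 2 * |x - j| ≤ s * (kf j - kf x) := by
  rcases Int.even_or_odd' j with ⟨i, rfl | rfl⟩
  · refine ⟨-1, Or.inr rfl, fun x hx => ?_⟩
    push_cast at hx ⊢
    rw [kf_even, kf_rec x, tri_near_even hx]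
    have := kf_nonneg (4 * x)
    have h2 := abs_nonneg (x - 2 * (i:ℝ))
    linarith
  · refine ⟨1, Or.inl rfl, fun x hx => ?_⟩
    push_cast at hx ⊢
    have h4 : kf (4 * (2 * (i:ℝ) + 1)) = 0 := by
      have : 4 * (2 * (i:ℝ) + 1) = 2 * ((4 * i + 2 : ℤ) : ℝ) := by push_cast; ring
      rw [this, kf_even]
    have hk : kf (2 * (i:ℝ) + 1) = 1 := by
      rw [kf_rec, h4, tri_up (j := i) (by linarith) (by linarith)]
      ring
    have hk4 : kf (4 * x) ≤ 6 * |x - (2 * i + 1)| := by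
      have := abs_kf_sub_le (4 * x) (4 * (2 * (i:ℝ) + 1))
      rw [h4, sub_zero, ← mul_sub, abs_mul, abs_of_pos (by norm_num : (0:ℝ) < 4)] at this
      have h5 := le_abs_self (kf (4 * x))
      linarith
    have htri : tri x = 1 - |x - (2 * i + 1)| := by
      rcases le_total x (2 * i + 1) with h | h
      · rw [abs_of_nonpos (by linarith)] at hx ⊢
        rw [tri_up (j := i) (by linarith) (by linarith)]
        ring
      · rw [abs_of_nonneg (by linarith)] at hx ⊢
        rw [tri_down (j := i) (by linarith) (by linarith)]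
        ring
    rw [hk, kf_rec x, htri]
    linarith

/-- the tip property at all grid points -/
lemma tip (n : ℕ) : ∀ i : ℤ, ∃ m s : ℝ, (s = 1 ∨ s = -1) ∧ ∀ x : ℝ, |x - i / 4 ^ n| ≤ 1 / 4 ^ n →
    1 / 2 * (1 / 3) ^ n * |x - i / 4 ^ n| ≤
      s * (kf (i / 4 ^ n) + m * (x - i / 4 ^ n) - kf x) := by
  induction n with
  | zero =>
    intro i
    obtain ⟨s, hs, h⟩ := tip_int i
    refine ⟨0, s, hs, fun x hx => ?_⟩
    simp only [pow_zero, div_one, mul_one, zero_mul, add_zero] at hx ⊢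
    exact h x hx
  | succ n ih =>
    intro i
    have h4 : (0:ℝ) < 4 ^ (n + 1) := by positivity
    by_cases hint : ∃ j : ℤ, i = j * 4 ^ (n + 1)
    · obtain ⟨j, rfl⟩ := hint
      obtain ⟨s, hs, h⟩ := tip_int j
      refine ⟨0, s, hs, fun x hx => ?_⟩
      have e : (((j * 4 ^ (n + 1) : ℤ) : ℝ)) / 4 ^ (n + 1) = j := by
        push_cast
        field_simp
      rw [e] at hx ⊢
      have h41 : 1 / (4:ℝ) ^ (n + 1) ≤ 1 := by
        rw [div_le_one h4]
        exact one_le_pow₀ (by norm_num)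
      have := h x (hx.trans h41)
      have h3 : (1 / 3 : ℝ) ^ (n + 1) ≤ 1 := pow_le_one₀ (by norm_num) (by norm_num)
      have h0 := abs_nonneg (x - (j:ℝ))
      have : 1 / 2 * (1 / 3 : ℝ) ^ (n + 1) * |x - j| ≤ 1 / 2 * |x - j| := by
        apply mul_le_mul_of_nonneg_right _ h0
        linarith
      simp only [zero_mul, add_zero]
      linarith
    · obtain ⟨m, s, hs, h⟩ := ih i
      -- the integer part
      set xi : ℝ := (i:ℝ) / 4 ^ (n + 1) with hxi
      set j : ℤ := ⌊xi⌋ with hj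
      have hj1 : (j:ℝ) ≤ xi := Int.floor_le _
      have hj2 : xi < j + 1 := Int.lt_floor_add_one _
      have hxi4 : xi * 4 ^ (n + 1) = i := by rw [hxi]; field_simp
      have a1 : j * 4 ^ (n + 1) < i := by
        have : j * 4 ^ (n + 1) ≤ i := by
          have : (j:ℝ) * 4 ^ (n + 1) ≤ i := by
            rw [← hxi4]
            exact mul_le_mul_of_nonneg_right hj1 h4.le
          exact_mod_cast this
        rcases this.lt_or_eq with h' | h'
        · exact h'
        · exact absurd ⟨j, h'.symm⟩ hint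
      have a2 : i < (j + 1) * 4 ^ (n + 1) := by
        have : (i:ℝ) < (j + 1) * 4 ^ (n + 1) := by
          rw [← hxi4]
          exact mul_lt_mul_of_pos_right hj2 h4
        exact_mod_cast this
      have b1 : (j:ℝ) ≤ xi - 1 / 4 ^ (n + 1) := by
        have : ((j * 4 ^ (n + 1) + 1 : ℤ) : ℝ) ≤ i := by exact_mod_cast a1
        push_cast at this
        rw [← hxi4] at this
        rw [le_sub_iff_add_le, ← sub_nonneg]
        have e : xi - (j + 1 / 4 ^ (n + 1)) = (xi * 4 ^ (n + 1) - (j * 4 ^ (n + 1) + 1)) / 4 ^ (n + 1) := by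
          field_simp
        rw [e]
        apply div_nonneg _ h4.le
        linarith
      have b2 : xi + 1 / 4 ^ (n + 1) ≤ j + 1 := by
        have : ((i + 1 : ℤ) : ℝ) ≤ ((j + 1) * 4 ^ (n + 1) : ℤ) := by exact_mod_cast a2
        push_cast at this
        rw [← hxi4] at this
        rw [← sub_nonneg]
        have e : (j:ℝ) + 1 - (xi + 1 / 4 ^ (n + 1)) = ((j + 1) * 4 ^ (n + 1) - (xi * 4 ^ (n + 1) + 1)) / 4 ^ (n + 1) := by
          field_simp
        rw [e]
        apply div_nonneg _ h4.le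
        linarith
      obtain ⟨σ, -, hσ⟩ := tri_affine j
      refine ⟨σ + m / 3, s, hs, fun x hx => ?_⟩
      have hx' := abs_le.mp hx
      have htri : tri xi - tri x = σ * (xi - x) :=
        hσ xi x hj1 hj2.le (by linarith) (by linarith)
      have e4 : (4:ℝ) * xi = i / 4 ^ n := by
        rw [hxi, pow_succ]; field_simp
      have h5 := h (4 * x) (by
        rw [← e4, ← mul_sub, abs_mul, abs_of_pos (by norm_num : (0:ℝ) < 4)]
        calc 4 * |x - xi| ≤ 4 * (1 / 4 ^ (n + 1)) := by linarith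
          _ = 1 / 4 ^ n := by rw [pow_succ]; field_simp)
      rw [← e4, ← mul_sub, abs_mul, abs_of_pos (by norm_num : (0:ℝ) < 4)] at h5
      rw [kf_rec xi, kf_rec x]
      have e6 : s * (tri xi + 1 / 12 * kf (4 * xi) + (σ + m / 3) * (x - xi) - (tri x + 1 / 12 * kf (4 * x)))
          = s * ((tri xi - tri x) - σ * (xi - x)) + 1 / 12 * (s * (kf (4 * xi) + m * (4 * (x - xi)) - kf (4 * x))) := by
        ring
      rw [e6, htri, sub_self, mul_zero, zero_add]
      have e7 : 1 / 2 * (1 / 3 : ℝ) ^ (n + 1) * |x - xi| = 1 / 12 * (1 / 2 * (1 / 3) ^ n * (4 * |x - xi|)) := by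
        rw [pow_succ]; ring
      rw [e7]
      linarith

end Pool.Agent.R634.CRem
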