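import Mathlib
import Pool.Agent.R634.CRem.Tri

/-!
# Local slopes of `kf`
-/

namespace Pool.Agent.R634.CRem

open MeasureTheory

/-- possible slopes of the `n`-th partial sums -/
noncomputable def V : ℕ → Finset ℝ
  | 0 => {0}
  | (n + 1) => (V n).image (fun t => 1 + t / 3) ∪ (V n).image (fun t => -1 + t / 3)

lemma card_V (n : ℕ) : (V n).card ≤ 2 ^ n := by
  induction n with
  | zero => simp [V]
  | succ n ih =>
    have h1 : ((V n).image (fun t => 1 + t / 3)).card ≤ 2 ^ n := Finset.card_image_le.trans ih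
    have h2 : ((V n).image (fun t => -1 + t / 3)).card ≤ 2 ^ n := Finset.card_image_le.trans ih
    have h3 := Finset.card_union_le ((V n).image (fun t => 1 + t / 3)) ((V n).image (fun t => -1 + t / 3))
    have : V (n + 1) = (V n).image (fun t => 1 + t / 3) ∪ (V n).image (fun t => -1 + t / 3) := rfl
    rw [this, pow_succ]
    omega

lemma slope_near (n : ℕ) : ∀ x0 : ℝ, (∀ l < n, ∀ j : ℤ, (4:ℝ) ^ l * x0 ≠ j) →
    ∃ σ ∈ V n, ∃ η : ℝ, 0 < η ∧ ∀ x y : ℝ, |x - x0| < η → |y - x0| < η →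
      |kf x - kf y - σ * (x - y)| ≤ 3 / 2 * (1 / 3) ^ n * |x - y| := by
  induction n with
  | zero =>
    intro x0 _
    refine ⟨0, by simp [V], 1, one_pos, fun x y _ _ => ?_⟩
    have := abs_kf_sub_le x y
    simpa using this
  | succ n ih =>
    intro x0 hx0
    obtain ⟨σ', hσ', η', hη', h'⟩ := ih (4 * x0) (by
      intro l hl j hj
      apply hx0 (l + 1) (by omega) j
      rw [← hj, pow_succ]
      ring)
    have hni : ∀ j : ℤ, x0 ≠ j := by
      intro j hj
      apply hx0 0 (by omega) j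
      rw [pow_zero, one_mul, hj]
    set j : ℤ := ⌊x0⌋ with hj
    have hj1 : (j:ℝ) < x0 := lt_of_le_of_ne (Int.floor_le _) (fun h => hni j h.symm)
    have hj2 : x0 < j + 1 := Int.lt_floor_add_one _
    obtain ⟨σ, hσ, hσa⟩ := tri_affine j
    refine ⟨σ + σ' / 3, ?_, min (η' / 4) (min (x0 - j) (j + 1 - x0)), ?_, fun x y hx hy => ?_⟩
    · have : V (n + 1) = (V n).image (fun t => 1 + t / 3) ∪ (V n).image (fun t => -1 + t / 3) := rfl
      rw [this, Finset.mem_union, Finset.mem_image, Finset.mem_image]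
      rcases hσ with rfl | rfl
      · exact Or.inl ⟨σ', hσ', rfl⟩
      · exact Or.inr ⟨σ', hσ', rfl⟩
    · refine lt_min (by linarith) (lt_min (by linarith) (by linarith))
    · rw [lt_min_iff, lt_min_iff] at hx hy
      obtain ⟨hx1, hx2, hx3⟩ := hx
      obtain ⟨hy1, hy2, hy3⟩ := hy
      have hx4 := abs_lt.mp hx2
      have hx5 := abs_lt.mp hx3
      have hy4 := abs_lt.mp hy2
      have hy5 := abs_lt.mp hy3
      have htri := hσa x y (by linarith) (by linarith) (by linarith) (by linarith)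
      have hk := h' (4 * x) (4 * y) (by
        rw [← mul_sub, abs_mul, abs_of_pos (by norm_num : (0:ℝ) < 4)]; linarith) (by
        rw [← mul_sub, abs_mul, abs_of_pos (by norm_num : (0:ℝ) < 4)]; linarith)
      rw [kf_rec x, kf_rec y]
      have e : tri x + 1 / 12 * kf (4 * x) - (tri y + 1 / 12 * kf (4 * y)) - (σ + σ' / 3) * (x - y)
          = (tri x - tri y - σ * (x - y)) + 1 / 12 * (kf (4 * x) - kf (4 * y) - σ' * (4 * x - 4 * y)) := by
        ring
      rw [e, htri, sub_self, zero_add, abs_mul, abs_of_pos (by norm_num : (0:ℝ) < 1 / 12)]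
      rw [← mul_sub 4 x y, abs_mul (4:ℝ), abs_of_pos (by norm_num : (0:ℝ) < 4)] at hk
      rw [pow_succ]
      have e2 : 3 / 2 * ((1 / 3 : ℝ) ^ n * (1 / 3)) * |x - y| = 1 / 12 * (3 / 2 * (1 / 3) ^ n * (4 * |x - y|)) := by
        ring
      rw [e2, ← mul_sub 4 x y]
      linarith

/-- slopes avoided by the partial sums are dense -/
lemma exists_slope {p q : ℝ} (hpq : p < q) : ∃ m : ℝ, p < m ∧ m < q ∧ ∃ n : ℕ, 1 ≤ n ∧
    ∀ σ ∈ V n, 3 / 2 * (1 / 3) ^ n < |σ - m| := by
  obtain ⟨N, hN⟩ := exists_pow_lt_of_lt_one (show (0:ℝ) < (q - p) / 3 by linarith)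
    (show (2 / 3 : ℝ) < 1 by norm_num)
  set n := N + 1 with hn
  have hN' : 3 * (2 / 3 : ℝ) ^ n < q - p := by
    have : (2 / 3 : ℝ) ^ n ≤ (2 / 3) ^ N := pow_le_pow_of_le_one (by norm_num) (by norm_num) (by omega)
    linarith
  by_contra hcon
  push Not at hcon
  set r : ℝ := 3 / 2 * (1 / 3) ^ n with hr
  have hr0 : 0 < r := by positivity
  have hsub : Set.Ioo p q ⊆ ⋃ σ ∈ V n, Set.Icc (σ - r) (σ + r) := by
    intro m hm
    obtain ⟨σ, hσ, h⟩ := hcon m hm.1 hm.2 n (by omega)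
    rw [abs_le] at h
    simp only [Set.mem_iUnion, Set.mem_Icc, exists_prop]
    exact ⟨σ, hσ, by linarith [h.2], by linarith [h.1]⟩
  have h1 : volume (Set.Ioo p q) ≤ ∑ σ ∈ V n, volume (Set.Icc (σ - r) (σ + r)) :=
    (measure_mono hsub).trans (measure_biUnion_finset_le _ _)
  have h2 : ∑ σ ∈ V n, volume (Set.Icc (σ - r) (σ + r)) = (V n).card * ENNReal.ofReal (2 * r) := by
    rw [Finset.sum_congr rfl (g := fun _ => ENNReal.ofReal (2 * r))]
    · rw [Finset.sum_const, nsmul_eq_mul]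
    · intro σ _
      rw [Real.volume_Icc]
      congr 1
      ring
  rw [h2, Real.volume_Ioo] at h1
  have h3 : ((V n).card : ENNReal) * ENNReal.ofReal (2 * r) ≤ ENNReal.ofReal (2 ^ n * (2 * r)) := by
    rw [ENNReal.ofReal_mul (p := 2 ^ n) (by positivity)]
    refine mul_le_mul' ?_ le_rfl
    rw [ENNReal.ofReal_pow (by norm_num)]
    have := card_V n
    have h4 : ENNReal.ofReal 2 = ((2:ℕ) : ENNReal) := by
      rw [← ENNReal.ofReal_natCast]; norm_num
    rw [h4]
    exact_mod_cast this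
  have h5 := h1.trans h3
  rw [ENNReal.ofReal_le_ofReal_iff (by positivity)] at h5
  have h6 : (2:ℝ) ^ n * (2 * r) = 3 * (2 / 3) ^ n := by
    rw [hr]
    have : (2 / 3 : ℝ) ^ n = 2 ^ n * (1 / 3) ^ n := by rw [← mul_pow]; norm_num
    rw [this]; ring
  linarith

/-- one-sided separation of the chords from a good slope near non-grid points -/
lemma chord_sep {m : ℝ} {n : ℕ} (hm : ∀ σ ∈ V n, 3 / 2 * (1 / 3) ^ n < |σ - m|) {x0 : ℝ}
    (hx0 : ∀ l < n, ∀ j : ℤ, (4:ℝ) ^ l * x0 ≠ j) :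
    ∃ s c η : ℝ, (s = 1 ∨ s = -1) ∧ 0 < c ∧ 0 < η ∧ ∀ x y : ℝ, |x - x0| < η → |y - x0| < η → x < y →
      c * (y - x) ≤ s * m * (y - x) - s * (kf y - kf x) := by
  obtain ⟨σ, hσ, η, hη, h⟩ := slope_near n x0 hx0
  have h1 := hm σ hσ
  rcases le_total σ m with hle | hle
  · rw [abs_of_nonpos (by linarith)] at h1
    refine ⟨1, -(σ - m) - 3 / 2 * (1 / 3) ^ n, η, Or.inl rfl, by linarith, hη, fun x y hx hy hxy => ?_⟩
    have h2 := h y x hy hx
    rw [abs_of_pos (by linarith : 0 < y - x)] at h2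
    have h3 := (abs_le.mp h2).2
    nlinarith
  · rw [abs_of_nonneg (by linarith)] at h1
    refine ⟨-1, (σ - m) - 3 / 2 * (1 / 3) ^ n, η, Or.inr rfl, by linarith, hη, fun x y hx hy hxy => ?_⟩
    have h2 := h y x hy hx
    rw [abs_of_pos (by linarith : 0 < y - x)] at h2
    have h3 := (abs_le.mp h2).1
    nlinarith

end Pool.Agent.R634.CRem
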