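import Mathlib
import Pool.Agent.R634.CRem.Slope

/-!
# Local convexity, one-dimensional lemmas
-/

namespace Pool.Agent.R634.CRem

open Set Filter Topology

/-- `f` is locally convex on the plane set `U`: every point of `U` has an open neighbourhood
`V ⊆ U` which is convex and on which `f` is convex. -/
def LocallyConvexOn (U : Set (ℝ × ℝ)) (f : ℝ × ℝ → ℝ) : Prop :=
  ∀ p ∈ U, ∃ V : Set (ℝ × ℝ), IsOpen V ∧ p ∈ V ∧ V ⊆ U ∧ ConvexOn ℝ V f

/-- A closed set `A ⊆ ℝ²` is `c`-removable if every function `f : ℝ² → ℝ` that is continuous and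
locally convex on the complement of `A` is convex on the whole plane. -/
def CRemovable (A : Set (ℝ × ℝ)) : Prop :=
  IsClosed A ∧ ∀ f : ℝ × ℝ → ℝ, Continuous f → LocallyConvexOn Aᶜ f → ConvexOn ℝ Set.univ f

lemma midpoint_of_loc {U : Set (ℝ × ℝ)} {f : ℝ × ℝ → ℝ} (h : LocallyConvexOn U f) {p : ℝ × ℝ}
    (hp : p ∈ U) (d1 d2 : ℝ) : ∃ ε > 0, ∀ s : ℝ, 0 < s → s < ε →
      2 * f p ≤ f (p.1 - s * d1, p.2 - s * d2) + f (p.1 + s * d1, p.2 + s * d2) := by
  obtain ⟨V, hV, hpV, -, hconv⟩ := h p hp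
  have h1 : Tendsto (fun s : ℝ => ((p.1 - s * d1, p.2 - s * d2) : ℝ × ℝ)) (𝓝 0) (𝓝 p) := by
    have : Continuous (fun s : ℝ => ((p.1 - s * d1, p.2 - s * d2) : ℝ × ℝ)) := by fun_prop
    have h0 := this.tendsto 0
    simpa using h0
  have h2 : Tendsto (fun s : ℝ => ((p.1 + s * d1, p.2 + s * d2) : ℝ × ℝ)) (𝓝 0) (𝓝 p) := by
    have : Continuous (fun s : ℝ => ((p.1 + s * d1, p.2 + s * d2) : ℝ × ℝ)) := by fun_prop
    have h0 := this.tendsto 0
    simpa using h0
  have h3 := (h1.eventually (hV.mem_nhds hpV)).and (h2.eventually (hV.mem_nhds hpV))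
  rw [Metric.eventually_nhds_iff] at h3
  obtain ⟨ε, hε, h4⟩ := h3
  refine ⟨ε, hε, fun s hs hsε => ?_⟩
  obtain ⟨hm, hp'⟩ := h4 (y := s) (by rw [Real.dist_eq, sub_zero, abs_of_pos hs]; exact hsε)
  have h5 := hconv.2 hm hp' (by norm_num : (0:ℝ) ≤ 1 / 2) (by norm_num : (0:ℝ) ≤ 1 / 2) (by norm_num)
  have e : (1 / 2 : ℝ) • ((p.1 - s * d1, p.2 - s * d2) : ℝ × ℝ)
      + (1 / 2 : ℝ) • ((p.1 + s * d1, p.2 + s * d2) : ℝ × ℝ) = p := by
    ext
    · simp only [Prod.fst_add, Prod.smul_fst, smul_eq_mul]; ring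
    · simp only [Prod.snd_add, Prod.smul_snd, smul_eq_mul]; ring
  rw [e] at h5
  simp only [smul_eq_mul] at h5
  linarith

/-- A continuous function satisfying the midpoint inequality for all small steps at each interior
point lies below its chord. -/
lemma chord_of_midpoint {g : ℝ → ℝ} {a b : ℝ} (hg : ContinuousOn g (Icc a b))
    (h : ∀ t, a < t → t < b → ∃ ε > 0, ∀ s : ℝ, 0 < s → s < ε → 2 * g t ≤ g (t - s) + g (t + s))
    {t : ℝ} (ht : t ∈ Icc a b) : (b - a) * g t ≤ (b - t) * g a + (t - a) * g b := by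
  by_contra hcon
  push Not at hcon
  set D : ℝ → ℝ := fun x => (b - a) * g x - (b - x) * g a - (x - a) * g b with hD
  have hDc : ContinuousOn D (Icc a b) := by
    apply ContinuousOn.sub
    · apply ContinuousOn.sub
      · exact continuousOn_const.mul hg
      · fun_prop
    · fun_prop
  have hDt : 0 < D t := by simp only [hD]; linarith
  obtain ⟨xm, hxm, hmax⟩ := isCompact_Icc.exists_isMaxOn ⟨t, ht⟩ hDc
  have hS : IsCompact {x ∈ Icc a b | D x = D xm} := by
    have h1 : IsClosed {x ∈ Icc a b | D x = D xm} := by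
      have : {x ∈ Icc a b | D x = D xm} = Icc a b ∩ D ⁻¹' {D xm} := rfl
      rw [this]
      exact hDc.preimage_isClosed_of_isClosed isClosed_Icc isClosed_singleton
    exact isCompact_Icc.of_isClosed_subset h1 (fun x hx => hx.1)
  obtain ⟨x, hx, hleast⟩ := hS.exists_isLeast ⟨xm, hxm, rfl⟩
  have hxD : D x = D xm := hx.2
  have hpos : 0 < D x := by
    rw [hxD]
    exact lt_of_lt_of_le hDt (hmax ht)
  have hax : a < x := by
    refine lt_of_le_of_ne hx.1.1 (fun h' => ?_)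
    rw [← h'] at hpos
    simp only [hD] at hpos
    ring_nf at hpos
    exact lt_irrefl _ hpos
  have hxb : x < b := by
    refine lt_of_le_of_ne hx.1.2 (fun h' => ?_)
    rw [h'] at hpos
    simp only [hD] at hpos
    ring_nf at hpos
    exact lt_irrefl _ hpos
  obtain ⟨ε, hε, hmid⟩ := h x hax hxb
  set s := min (ε / 2) (min ((x - a) / 2) ((b - x) / 2)) with hs
  have hs0 : 0 < s := by
    refine lt_min (by linarith) (lt_min (by linarith) (by linarith))
  have hs1 : s ≤ ε / 2 := min_le_left _ _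
  have hs2 : s ≤ (x - a) / 2 := (min_le_right _ _).trans (min_le_left _ _)
  have hs3 : s ≤ (b - x) / 2 := (min_le_right _ _).trans (min_le_right _ _)
  have hm1 : x - s ∈ Icc a b := ⟨by linarith, by linarith⟩
  have hm2 : x + s ∈ Icc a b := ⟨by linarith, by linarith⟩
  have h1 : D (x - s) < D x := by
    rw [hxD]
    refine lt_of_le_of_ne (hmax hm1) (fun h' => ?_)
    have := hleast ⟨hm1, h'⟩
    linarith
  have h2 : D (x + s) ≤ D x := by
    rw [hxD]
    exact hmax hm2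
  have h3 := hmid s hs0 (by linarith)
  have hab : 0 < b - a := by linarith
  have h4 : 2 * D x ≤ D (x - s) + D (x + s) := by
    have : (b - a) * (2 * g x) ≤ (b - a) * (g (x - s) + g (x + s)) := mul_le_mul_of_nonneg_left h3 hab.le
    simp only [hD]
    linarith
  linarith

/-- discrete maximum principle -/
lemma discrete_max {D : ℤ → ℝ} {ia ib : ℤ} (h0 : D ia ≤ 0) (h1 : D ib ≤ 0)
    (h : ∀ i, ia < i → i < ib → ∃ w w' : ℝ, 0 < w ∧ 0 < w' ∧
      (w + w') * D i < w * D (i - 1) + w' * D (i + 1)) :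
    ∀ i, ia ≤ i → i ≤ ib → D i ≤ 0 := by
  intro i hi1 hi2
  by_contra hcon
  push Not at hcon
  obtain ⟨x, hx, hmax⟩ := Finset.exists_max_image (Finset.Icc ia ib) D ⟨i, Finset.mem_Icc.mpr ⟨hi1, hi2⟩⟩
  rw [Finset.mem_Icc] at hx
  have hpos : 0 < D x := lt_of_lt_of_le hcon (hmax i (Finset.mem_Icc.mpr ⟨hi1, hi2⟩))
  have hx1 : ia < x := by
    refine lt_of_le_of_ne hx.1 (fun h' => ?_)
    rw [← h'] at hpos
    linarith
  have hx2 : x < ib := by
    refine lt_of_le_of_ne hx.2 (fun h' => ?_)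
    rw [h'] at hpos
    linarith
  obtain ⟨w, w', hw, hw', hlt⟩ := h x hx1 hx2
  have a1 := hmax (x - 1) (Finset.mem_Icc.mpr ⟨by omega, by omega⟩)
  have a2 := hmax (x + 1) (Finset.mem_Icc.mpr ⟨by omega, by omega⟩)
  have b1 : w * D (x - 1) ≤ w * D x := mul_le_mul_of_nonneg_left a1 hw.le
  have b2 : w' * D (x + 1) ≤ w' * D x := mul_le_mul_of_nonneg_left a2 hw'.le
  linarith

/-- The arc: the graph of `kf` over `[0, 1]`. -/
def K : Set (ℝ × ℝ) := {p | p.1 ∈ Icc (0:ℝ) 1 ∧ p.2 = kf p.1}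

lemma isCompact_K : IsCompact K := by
  have : K = (fun x : ℝ => ((x, kf x) : ℝ × ℝ)) '' Icc 0 1 := by
    ext ⟨x, y⟩
    simp only [K, mem_setOf_eq, mem_image, Prod.mk.injEq]
    constructor
    · rintro ⟨hx, hy⟩
      exact ⟨x, hx, rfl, hy.symm⟩
    · rintro ⟨x', hx', rfl, rfl⟩
      exact ⟨hx', rfl⟩
  rw [this]
  exact isCompact_Icc.image (continuous_id.prodMk continuous_kf)

lemma isConnected_K : IsConnected K := by
  have : K = (fun x : ℝ => ((x, kf x) : ℝ × ℝ)) '' Icc 0 1 := by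
    ext ⟨x, y⟩
    simp only [K, mem_setOf_eq, mem_image, Prod.mk.injEq]
    constructor
    · rintro ⟨hx, hy⟩
      exact ⟨x, hx, rfl, hy.symm⟩
    · rintro ⟨x', hx', rfl, rfl⟩
      exact ⟨hx', rfl⟩
  rw [this]
  exact (isConnected_Icc (by norm_num)).image _ (continuous_id.prodMk continuous_kf).continuousOn

lemma nontrivial_K : K.Nontrivial := by
  refine ⟨(0, kf 0), ⟨⟨le_rfl, zero_le_one⟩, rfl⟩, (1, kf 1), ⟨⟨zero_le_one, le_rfl⟩, rfl⟩, ?_⟩
  intro h
  have := congrArg Prod.fst h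
  simp at this

end Pool.Agent.R634.CRem
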