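import Mathlib
import Pool.Agent.R634.CRem.Basic

/-!
# The crossing lemma
-/

namespace Pool.Agent.R634.CRem

open Set Filter Topology

/-- Hypotheses for a transversal direction `(e1, e2)` at `x0`. -/
structure Tr (e1 e2 c0 η x0 : ℝ) : Prop where
  he : e1 = 1 ∨ e1 = -1
  hc0 : 0 < c0
  hη : 0 < η
  hU : ∀ x y : ℝ, |x - x0| < η → |y - x0| < η → x < y →
    c0 * (y - x) ≤ e2 * (y - x) - e1 * (kf y - kf x)

variable {e1 e2 c0 η x0 : ℝ}

lemma Tr.abs_e (T : Tr e1 e2 c0 η x0) : |e1| = 1 := by
  rcases T.he with h | h <;> rw [h] <;> simp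

lemma Tr.e_sq (T : Tr e1 e2 c0 η x0) : e1 * e1 = 1 := by
  rcases T.he with h | h <;> rw [h] <;> norm_num

/-- points near the arc moved in the direction `e` leave the arc -/
lemma Tr.notMem (T : Tr e1 e2 c0 η x0) {x t : ℝ} (hx : |x - x0| < η) (ht : t ≠ 0)
    (hxt : |x + t * e1 - x0| < η) : (x + t * e1, kf x + t * e2) ∉ K := by
  rintro ⟨-, hy⟩
  simp only at hy
  have hne : t * e1 ≠ 0 := by
    apply mul_ne_zero ht
    rcases T.he with h | h <;> rw [h] <;> norm_num
  rcases lt_or_gt_of_ne hne with h | h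
  · have h1 := T.hU (x + t * e1) x hxt hx (by linarith)
    rw [← hy] at h1
    have h2 : e2 * (x - (x + t * e1)) - e1 * (kf x - (kf x + t * e2)) = 0 := by ring
    rw [h2] at h1
    have h3 : 0 < c0 * (x - (x + t * e1)) := mul_pos T.hc0 (by linarith)
    linarith
  · have h1 := T.hU x (x + t * e1) hx hxt (by linarith)
    rw [← hy] at h1
    have h2 : e2 * (x + t * e1 - x) - e1 * (kf x + t * e2 - kf x) = 0 := by ring
    rw [h2] at h1
    have h3 : 0 < c0 * (x + t * e1 - x) := mul_pos T.hc0 (by linarith)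
    linarith

/-- upper bound for increments of `U` -/
lemma Tr.upper (T : Tr e1 e2 c0 η x0) {x y : ℝ} (hxy : x ≤ y) :
    e2 * (y - x) - e1 * (kf y - kf x) ≤ (|e2| + 3 / 2) * (y - x) := by
  have h1 := abs_kf_sub_le y x
  rw [abs_of_nonneg (by linarith : 0 ≤ y - x)] at h1
  have h2 : e2 * (y - x) ≤ |e2| * (y - x) := mul_le_mul_of_nonneg_right (le_abs_self _) (by linarith)
  have h3 : -(e1 * (kf y - kf x)) ≤ |e1 * (kf y - kf x)| := neg_le_abs _
  rw [abs_mul, T.abs_e, one_mul] at h3
  linarith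

/-- the half-line bound -/
lemma half_bound {f : ℝ × ℝ → ℝ} (hf : Continuous f) (hloc : LocallyConvexOn Kᶜ f)
    (T : Tr e1 e2 c0 η x0) {s x t1 c κ : ℝ} (hs : s = 1 ∨ s = -1) (ht1 : 0 < t1)
    (hx : |x - x0| + t1 < η)
    (hend : f (x + s * t1 * e1, kf x + s * t1 * e2) ≤ f (x, kf x) + (s * c - κ) * t1)
    {t : ℝ} (ht0 : 0 ≤ t) (htt : t ≤ t1) :
    f (x + s * t * e1, kf x + s * t * e2) ≤ f (x, kf x) + (s * c - κ) * t := by
  set g : ℝ → ℝ := fun t => f (x + s * t * e1, kf x + s * t * e2) with hg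
  have hgc : Continuous g := by
    apply hf.comp
    fun_prop
  have habs : ∀ t : ℝ, |s * t * e1| = |t| := by
    intro t
    rw [abs_mul, T.abs_e, mul_one, abs_mul]
    rcases hs with h | h <;> rw [h] <;> simp
  have hmid : ∀ t : ℝ, 0 < t → t < t1 → ∃ ε > 0, ∀ r : ℝ, 0 < r → r < ε →
      2 * g t ≤ g (t - r) + g (t + r) := by
    intro t h1 h2
    have hnot : (x + (s * t) * e1, kf x + (s * t) * e2) ∉ K := by
      apply T.notMem
      · linarith
      · rcases hs with h | h <;> rw [h] <;> intro h' <;> linarith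
      · have := abs_add_le (x - x0) (s * t * e1)
        rw [habs, abs_of_pos h1] at this
        have e : x + s * t * e1 - x0 = x - x0 + s * t * e1 := by ring
        rw [e]
        linarith
    obtain ⟨ε, hε, h3⟩ := midpoint_of_loc hloc hnot (s * e1) (s * e2)
    refine ⟨ε, hε, fun r hr hrε => ?_⟩
    have h4 := h3 r hr hrε
    have ea : ((x + s * (t - r) * e1, kf x + s * (t - r) * e2) : ℝ × ℝ)
        = (x + s * t * e1 - r * (s * e1), kf x + s * t * e2 - r * (s * e2)) := by
      rw [Prod.mk.injEq]; constructor <;> ring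
    have eb : ((x + s * (t + r) * e1, kf x + s * (t + r) * e2) : ℝ × ℝ)
        = (x + s * t * e1 + r * (s * e1), kf x + s * t * e2 + r * (s * e2)) := by
      rw [Prod.mk.injEq]; constructor <;> ring
    simp only [hg]
    rw [ea, eb]
    exact h4
  have h5 := chord_of_midpoint (g := g) (a := 0) (b := t1) hgc.continuousOn hmid ⟨ht0, htt⟩
  have e0 : g 0 = f (x, kf x) := by simp [hg]
  rw [e0, sub_zero, sub_zero] at h5
  have h6 : t * g t1 ≤ t * (f (x, kf x) + (s * c - κ) * t1) := mul_le_mul_of_nonneg_left hend ht0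
  have h7 : t1 * g t ≤ t1 * (f (x, kf x) + (s * c - κ) * t) := by
    calc t1 * g t ≤ (t1 - t) * f (x, kf x) + t * g t1 := h5
      _ ≤ (t1 - t) * f (x, kf x) + t * (f (x, kf x) + (s * c - κ) * t1) := by linarith
      _ = t1 * (f (x, kf x) + (s * c - κ) * t) := by ring
  exact le_of_mul_le_mul_left h7 ht1

/-- The segment inequality at a tip. -/
lemma seg_ineq {f : ℝ × ℝ → ℝ} (hf : Continuous f) (hloc : LocallyConvexOn Kᶜ f)
    (T : Tr e1 e2 c0 η x0) {xi δ m s : ℝ} (hs : s = 1 ∨ s = -1) (hδ : 0 < δ)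
    (htip : ∀ x : ℝ, |x - xi| ≤ δ → 0 ≤ s * (kf xi + m * (x - xi) - kf x))
    (hq : 0 < e2 - m * e1) {τp τm : ℝ}
    (hτp : τp * (e2 - m * e1) = e2 * δ - e1 * (kf (xi + δ) - kf xi))
    (hτm : τm * (e2 - m * e1) = e2 * (-δ) - e1 * (kf (xi - δ) - kf xi))
    (hp0 : 0 < τp) (hm0 : τm < 0)
    (hnear : |xi - x0| + δ < η) (hnp : |xi - x0| + τp < η) (hnm : |xi - x0| - τm < η) :
    (τp - τm) * f (xi, kf xi) ≤ τp * f (xi + τm, kf xi + τm * m) - τm * f (xi + τp, kf xi + τp * m) := by
  -- the shifted segments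
  set G : ℝ → ℝ → ℝ := fun ε τ => f (xi + τ + s * ε * e1, kf xi + τ * m + s * ε * e2) with hG
  have habs : ∀ ε : ℝ, |s * ε * e1| = |ε| := by
    intro t
    rw [abs_mul, T.abs_e, mul_one, abs_mul]
    rcases hs with h | h <;> rw [h] <;> simp
  set ε0 := min (η - |xi - x0| - τp) (η - |xi - x0| + τm) with hε0
  have hε0pos : 0 < ε0 := lt_min (by linarith) (by linarith)
  have key : ∀ ε : ℝ, 0 < ε → ε < ε0 → (τp - τm) * G ε 0 ≤ τp * G ε τm - τm * G ε τp := by
    intro ε hε1 hε2
    have hε3 : ε < η - |xi - x0| - τp := lt_of_lt_of_le hε2 (min_le_left _ _)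
    have hε4 : ε < η - |xi - x0| + τm := lt_of_lt_of_le hε2 (min_le_right _ _)
    have hc : Continuous (G ε) := by
      apply hf.comp
      fun_prop
    have hmid : ∀ τ : ℝ, τm < τ → τ < τp → ∃ ε' > 0, ∀ r : ℝ, 0 < r → r < ε' →
        2 * G ε τ ≤ G ε (τ - r) + G ε (τ + r) := by
      intro τ h1 h2
      have hnot : (xi + τ + s * ε * e1, kf xi + τ * m + s * ε * e2) ∉ K := by
        rintro ⟨-, hy⟩
        simp only at hy
        set x' := xi + τ + s * ε * e1 with hx'
        have hsε : |s * ε * e1| = ε := by rw [habs, abs_of_pos hε1]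
        have hsε' := abs_le.mp hsε.le
        have hxx := abs_le.mp (le_refl |xi - x0|)
        have hxη : |x' - x0| < η := by
          rw [abs_lt]
          constructor
          · rw [hx']; linarith [hsε'.1, hxx.1]
          · rw [hx']; linarith [hsε'.2, hxx.2]
        have hUx : e2 * (x' - xi) - e1 * (kf x' - kf xi) = τ * (e2 - m * e1) := by
          rw [← hy, hx']; ring
        have hxiη : |xi - x0| < η := by linarith
        have hx1η : |xi + δ - x0| < η := by
          rw [abs_lt]; constructor <;> linarith [hxx.1, hxx.2]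
        have hx2η : |xi - δ - x0| < η := by
          rw [abs_lt]; constructor <;> linarith [hxx.1, hxx.2]
        -- `x'` lies between `xi - δ` and `xi + δ`
        have hle1 : x' ≤ xi + δ := by
          by_contra hgt
          push Not at hgt
          have h3 := T.hU (xi + δ) x' hx1η hxη hgt
          have h4 : 0 < c0 * (x' - (xi + δ)) := mul_pos T.hc0 (by linarith)
          have h5 : τ * (e2 - m * e1) < τp * (e2 - m * e1) := mul_lt_mul_of_pos_right h2 hq
          have e3 : e2 * (x' - (xi + δ)) - e1 * (kf x' - kf (xi + δ))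
              = (e2 * (x' - xi) - e1 * (kf x' - kf xi)) - (e2 * δ - e1 * (kf (xi + δ) - kf xi)) := by ring
          rw [e3, hUx, ← hτp] at h3
          linarith
        have hle2 : xi - δ ≤ x' := by
          by_contra hgt
          push Not at hgt
          have h3 := T.hU x' (xi - δ) hxη hx2η hgt
          have h4 : 0 < c0 * (xi - δ - x') := mul_pos T.hc0 (by linarith)
          have h5 : τm * (e2 - m * e1) < τ * (e2 - m * e1) := mul_lt_mul_of_pos_right h1 hq
          have e3 : e2 * (xi - δ - x') - e1 * (kf (xi - δ) - kf x')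
              = (e2 * (-δ) - e1 * (kf (xi - δ) - kf xi)) - (e2 * (x' - xi) - e1 * (kf x' - kf xi)) := by ring
          rw [e3, hUx, ← hτm] at h3
          linarith
        have h6 := htip x' (by rw [abs_le]; constructor <;> linarith)
        rw [← hy] at h6
        have e7 : s * (kf xi + m * (x' - xi) - (kf xi + τ * m + s * ε * e2))
            = -(s * s) * ε * (e2 - m * e1) := by rw [hx']; ring
        have hss : s * s = 1 := by rcases hs with h | h <;> rw [h] <;> norm_num
        rw [e7, hss] at h6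
        have : 0 < ε * (e2 - m * e1) := mul_pos hε1 hq
        linarith
      obtain ⟨ε', hε', h3⟩ := midpoint_of_loc hloc hnot 1 m
      refine ⟨ε', hε', fun r hr hrε => ?_⟩
      have h4 := h3 r hr hrε
      have ea : ((xi + (τ - r) + s * ε * e1, kf xi + (τ - r) * m + s * ε * e2) : ℝ × ℝ)
          = (xi + τ + s * ε * e1 - r * 1, kf xi + τ * m + s * ε * e2 - r * m) := by
        rw [Prod.mk.injEq]; constructor <;> ring
      have eb : ((xi + (τ + r) + s * ε * e1, kf xi + (τ + r) * m + s * ε * e2) : ℝ × ℝ)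
          = (xi + τ + s * ε * e1 + r * 1, kf xi + τ * m + s * ε * e2 + r * m) := by
        rw [Prod.mk.injEq]; constructor <;> ring
      simp only [hG]
      rw [ea, eb]
      exact h4
    have h5 := chord_of_midpoint (g := G ε) (a := τm) (b := τp) hc.continuousOn hmid
      (t := 0) ⟨hm0.le, hp0.le⟩
    linarith
  -- pass to the limit
  have hl1 : Tendsto (fun ε : ℝ => (τp - τm) * G ε 0) (𝓝[>] 0) (𝓝 ((τp - τm) * G 0 0)) := by
    have : Continuous (fun ε : ℝ => (τp - τm) * G ε 0) := by
      apply continuous_const.mul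
      apply hf.comp
      fun_prop
    exact (this.tendsto 0).mono_left nhdsWithin_le_nhds
  have hl2 : Tendsto (fun ε : ℝ => τp * G ε τm - τm * G ε τp) (𝓝[>] 0)
      (𝓝 (τp * G 0 τm - τm * G 0 τp)) := by
    have : Continuous (fun ε : ℝ => τp * G ε τm - τm * G ε τp) := by
      apply Continuous.sub
      · apply continuous_const.mul
        apply hf.comp
        fun_prop
      · apply continuous_const.mul
        apply hf.comp
        fun_prop
    exact (this.tendsto 0).mono_left nhdsWithin_le_nhds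
  have hev : ∀ᶠ ε : ℝ in 𝓝[>] 0, (τp - τm) * G ε 0 ≤ τp * G ε τm - τm * G ε τp := by
    filter_upwards [Ioo_mem_nhdsGT hε0pos] with ε hε
    exact key ε hε.1 hε.2
  have := le_of_tendsto_of_tendsto hl1 hl2 hev
  simpa [hG] using this

end Pool.Agent.R634.CRem
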