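import Mathlib
import Pool.Agent.R634.CRem.Cross

/-!
# The crossing theorem
-/

namespace Pool.Agent.R634.CRem

open Set Filter Topology

variable {e1 e2 c0 η x0 : ℝ}

/-- the transversal coordinate -/
noncomputable def U (e1 e2 x : ℝ) : ℝ := e2 * x - e1 * kf x

/-- Tip inequality. -/
lemma tip_ineq {f : ℝ × ℝ → ℝ} (hf : Continuous f) (hloc : LocallyConvexOn Kᶜ f)
    (T : Tr e1 e2 c0 η x0) {c κ t1 ρ : ℝ} (hκ : 0 < κ) (ht1 : 0 < t1) (ht1η : t1 < η / 4)
    (hρη : ρ ≤ η / 4)
    (hend : ∀ s : ℝ, (s = 1 ∨ s = -1) → ∀ x : ℝ, |x - x0| < ρ →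
      f (x + s * t1 * e1, kf x + s * t1 * e2) ≤ f (x, kf x) + (s * c - κ) * t1)
    (n : ℕ) (i : ℤ) {δ xi : ℝ} (hδ : δ = 1 / 4 ^ n) (hxi : xi = i / 4 ^ n)
    (hδt : 3 * δ < c0 * t1) (h1 : |xi + δ - x0| < ρ) (h2 : |xi - δ - x0| < ρ) :
    (U e1 e2 (xi + δ) - U e1 e2 (xi - δ)) * (f (xi, kf xi) - c * e1 * xi) ≤
      (U e1 e2 (xi + δ) - U e1 e2 xi) * (f (xi - δ, kf (xi - δ)) - c * e1 * (xi - δ))
      + (U e1 e2 xi - U e1 e2 (xi - δ)) * (f (xi + δ, kf (xi + δ)) - c * e1 * (xi + δ))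
      - κ * (1 / 2 * (1 / 3) ^ n * δ / (|e2| + 3 / 2)) * (U e1 e2 (xi + δ) - U e1 e2 (xi - δ)) := by
  have hδ0 : 0 < δ := by rw [hδ]; positivity
  have hC0 : 0 < |e2| + 3 / 2 := by positivity
  obtain ⟨m, s, hs, htip⟩ := tip n i
  rw [← hxi, ← hδ] at htip
  have hss : s * s = 1 := by rcases hs with h | h <;> rw [h] <;> norm_num
  have hsabs : |s| = 1 := by rcases hs with h | h <;> rw [h] <;> simp
  have hee := T.e_sq
  have h3n : (0:ℝ) < (1 / 3) ^ n := by positivity
  -- positions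
  have hA := abs_lt.mp h1
  have hB := abs_lt.mp h2
  have hc : |xi - x0| + δ < ρ := by
    rcases abs_cases (xi - x0) with h | h <;> linarith [hA.2, hB.1]
  have hcx := abs_nonneg (xi - x0)
  have hxiη : |xi - x0| < η := by linarith
  have hpη : |xi + δ - x0| < η := by linarith
  have hmη : |xi - δ - x0| < η := by linarith
  -- tip data at the two neighbours
  have tp := htip (xi + δ) (by rw [add_sub_cancel_left, abs_of_pos hδ0])
  have tm := htip (xi - δ) (by
    rw [show xi - δ - xi = -δ by ring, abs_neg, abs_of_pos hδ0])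
  rw [add_sub_cancel_left, abs_of_pos hδ0] at tp
  rw [show xi - δ - xi = -δ by ring, abs_neg, abs_of_pos hδ0] at tm
  obtain ⟨rp, hrp⟩ : ∃ r, r = s * (kf xi + m * δ - kf (xi + δ)) := ⟨_, rfl⟩
  obtain ⟨rm, hrm⟩ : ∃ r, r = s * (kf xi + m * -δ - kf (xi - δ)) := ⟨_, rfl⟩
  rw [← hrp] at tp
  rw [← hrm] at tm
  have kp : kf (xi + δ) = kf xi + m * δ - s * rp := by
    rw [hrp]
    have : s * (s * (kf xi + m * δ - kf (xi + δ))) = (s * s) * (kf xi + m * δ - kf (xi + δ)) := by ring
    rw [this, hss]; ring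
  have km : kf (xi - δ) = kf xi - m * δ - s * rm := by
    rw [hrm]
    have : s * (s * (kf xi + m * -δ - kf (xi - δ))) = (s * s) * (kf xi + m * -δ - kf (xi - δ)) := by ring
    rw [this, hss]; ring
  have hrp0 : 0 < rp := lt_of_lt_of_le (by positivity) tp
  have hrm0 : 0 < rm := lt_of_lt_of_le (by positivity) tm
  -- Lipschitz bounds
  have lp := abs_kf_sub_le (xi + δ) xi
  rw [add_sub_cancel_left, abs_of_pos hδ0] at lp
  have lm := abs_kf_sub_le (xi - δ) xi
  rw [show xi - δ - xi = -δ by ring, abs_neg, abs_of_pos hδ0] at lm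
  have lp' := abs_le.mp lp
  have lm' := abs_le.mp lm
  -- bound on m
  have hm32 : |m| ≤ 3 / 2 := by
    rw [abs_le]
    rcases hs with h | h
    · rw [h] at kp km
      constructor
      · by_contra hcon
        push Not at hcon
        have : m * δ < -(3 / 2) * δ := mul_lt_mul_of_pos_right hcon hδ0
        linarith [lp'.1]
      · by_contra hcon
        push Not at hcon
        have : 3 / 2 * δ < m * δ := mul_lt_mul_of_pos_right hcon hδ0
        linarith [lm'.1]
    · rw [h] at kp km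
      constructor
      · by_contra hcon
        push Not at hcon
        have : m * δ < -(3 / 2) * δ := mul_lt_mul_of_pos_right hcon hδ0
        linarith [lm'.2]
      · by_contra hcon
        push Not at hcon
        have : 3 / 2 * δ < m * δ := mul_lt_mul_of_pos_right hcon hδ0
        linarith [lp'.2]
  -- lower bound for q
  obtain ⟨q, hq⟩ : ∃ q, q = e2 - m * e1 := ⟨_, rfl⟩
  have u1 := T.hU xi (xi + δ) hxiη hpη (by linarith)
  have u2 := T.hU (xi - δ) xi hmη hxiη (by linarith)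
  have hqc : c0 ≤ q := by
    have a1 : c0 * δ ≤ q * δ + e1 * s * rp := by
      have : e2 * (xi + δ - xi) - e1 * (kf (xi + δ) - kf xi) = q * δ + e1 * s * rp := by
        rw [kp, hq]; ring
      rw [this] at u1
      linarith
    have a2 : c0 * δ ≤ q * δ - e1 * s * rm := by
      have : e2 * (xi - (xi - δ)) - e1 * (kf xi - kf (xi - δ)) = q * δ - e1 * s * rm := by
        rw [km, hq]; ring
      rw [this] at u2
      linarith
    have a3 : c0 * δ ≤ q * δ := by
      rcases T.he with h | h <;> rcases hs with h' | h' <;> rw [h, h'] at a1 a2 <;> linarith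
    exact le_of_mul_le_mul_right a3 hδ0
  have hq0 : 0 < q := lt_of_lt_of_le T.hc0 hqc
  have hqC : q ≤ |e2| + 3 / 2 := by
    have h4 : -(m * e1) ≤ |m * e1| := neg_le_abs _
    rw [abs_mul, T.abs_e, mul_one] at h4
    have := le_abs_self e2
    rw [hq]; linarith
  -- gaps along e
  obtain ⟨gp, hgp⟩ : ∃ g, g = rp / q := ⟨_, rfl⟩
  obtain ⟨gm, hgm⟩ : ∃ g, g = rm / q := ⟨_, rfl⟩
  have hgpq : gp * q = rp := by rw [hgp]; field_simp
  have hgmq : gm * q = rm := by rw [hgm]; field_simp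
  have hgp0 : 0 < gp := by rw [hgp]; exact div_pos hrp0 hq0
  have hgm0 : 0 < gm := by rw [hgm]; exact div_pos hrm0 hq0
  have hrp3 : rp ≤ 3 * δ := by
    have : rp ≤ |rp| := le_abs_self _
    rw [hrp, abs_mul, hsabs, one_mul] at this
    have h5 := abs_add_le (m * δ) (kf xi - kf (xi + δ))
    rw [show m * δ + (kf xi - kf (xi + δ)) = kf xi + m * δ - kf (xi + δ) by ring, abs_mul,
      abs_of_pos hδ0, abs_sub_comm (kf xi)] at h5
    have h6 : |m| * δ ≤ 3 / 2 * δ := mul_le_mul_of_nonneg_right hm32 hδ0.le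
    linarith
  have hrm3 : rm ≤ 3 * δ := by
    have : rm ≤ |rm| := le_abs_self _
    rw [hrm, abs_mul, hsabs, one_mul] at this
    have h5 := abs_add_le (m * -δ) (kf xi - kf (xi - δ))
    rw [show m * -δ + (kf xi - kf (xi - δ)) = kf xi + m * -δ - kf (xi - δ) by ring, abs_mul,
      abs_neg, abs_of_pos hδ0, abs_sub_comm (kf xi)] at h5
    have h6 : |m| * δ ≤ 3 / 2 * δ := mul_le_mul_of_nonneg_right hm32 hδ0.le
    linarith
  have hgpt : gp < t1 := by
    rw [hgp, div_lt_iff₀ hq0]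
    have : c0 * t1 ≤ t1 * q := by
      rw [mul_comm c0]; exact mul_le_mul_of_nonneg_left hqc ht1.le
    linarith
  have hgmt : gm < t1 := by
    rw [hgm, div_lt_iff₀ hq0]
    have : c0 * t1 ≤ t1 * q := by
      rw [mul_comm c0]; exact mul_le_mul_of_nonneg_left hqc ht1.le
    linarith
  -- lower bound for the gaps
  obtain ⟨gmin, hgmin⟩ : ∃ g, g = 1 / 2 * (1 / 3 : ℝ) ^ n * δ / (|e2| + 3 / 2) := ⟨_, rfl⟩
  have hgp1 : gmin ≤ gp := by
    rw [hgmin, hgp]
    exact div_le_div₀ hrp0.le tp hq0 hqC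
  have hgm1 : gmin ≤ gm := by
    rw [hgmin, hgm]
    exact div_le_div₀ hrm0.le tm hq0 hqC
  -- the parameters of the neighbours on the support line
  obtain ⟨τp, hτp⟩ : ∃ τ, τ = δ + s * gp * e1 := ⟨_, rfl⟩
  obtain ⟨τm, hτm⟩ : ∃ τ, τ = -δ + s * gm * e1 := ⟨_, rfl⟩
  have eτp : τp * q = e2 * δ - e1 * (kf (xi + δ) - kf xi) := by
    rw [kp, hτp]
    have : (δ + s * gp * e1) * q = δ * q + s * e1 * (gp * q) := by ring
    rw [this, hgpq, hq]; ring
  have eτm : τm * q = e2 * (-δ) - e1 * (kf (xi - δ) - kf xi) := by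
    rw [km, hτm]
    have : (-δ + s * gm * e1) * q = -δ * q + s * e1 * (gm * q) := by ring
    rw [this, hgmq, hq]; ring
  have hUp : U e1 e2 (xi + δ) - U e1 e2 xi = τp * q := by
    rw [eτp, U, U]; ring
  have hUm : U e1 e2 xi - U e1 e2 (xi - δ) = -(τm * q) := by
    rw [eτm, U, U]; ring
  have hτp0 : 0 < τp := by
    have : 0 < τp * q := by
      rw [← hUp, U, U]
      have : 0 < c0 * (xi + δ - xi) := mul_pos T.hc0 (by linarith)
      linarith
    by_contra hcon
    push Not at hcon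
    have := mul_nonpos_of_nonpos_of_nonneg hcon hq0.le
    linarith
  have hτm0 : τm < 0 := by
    have : 0 < (-τm) * q := by
      have e : (-τm) * q = -(τm * q) := by ring
      rw [e, ← hUm, U, U]
      have : 0 < c0 * (xi - (xi - δ)) := mul_pos T.hc0 (by linarith)
      linarith
    by_contra hcon
    push Not at hcon
    have := mul_nonpos_of_nonpos_of_nonneg (show -τm ≤ 0 by linarith) hq0.le
    linarith
  have hsg : ∀ g : ℝ, |s * g * e1| = |g| := by
    intro g; rw [abs_mul, T.abs_e, mul_one, abs_mul, hsabs, one_mul]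
  have hτpb : τp ≤ δ + gp := by
    have := le_abs_self (s * gp * e1)
    rw [hsg, abs_of_pos hgp0] at this
    rw [hτp]; linarith
  have hτmb : -τm ≤ δ + gm := by
    have := neg_le_abs (s * gm * e1)
    rw [hsg, abs_of_pos hgm0] at this
    rw [hτm]; linarith
  -- the segment inequality
  have seg := seg_ineq hf hloc T hs hδ0 (fun x hx => le_trans (by positivity) (htip x hx))
    (by rw [← hq]; exact hq0) (by rw [← hq]; exact eτp) (by rw [← hq]; exact eτm)
    hτp0 hτm0 (by linarith) (by linarith) (by linarith)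
  -- the end points
  have Ep : ((xi + τp, kf xi + τp * m) : ℝ × ℝ)
      = ((xi + δ) + s * gp * e1, kf (xi + δ) + s * gp * e2) := by
    rw [Prod.mk.injEq]
    refine ⟨by rw [hτp]; ring, ?_⟩
    rw [kp, hτp, ← hgpq, hq]
    ring
  have Em : ((xi + τm, kf xi + τm * m) : ℝ × ℝ)
      = ((xi - δ) + s * gm * e1, kf (xi - δ) + s * gm * e2) := by
    rw [Prod.mk.injEq]
    refine ⟨by rw [hτm]; ring, ?_⟩
    rw [km, hτm, ← hgmq, hq]
    ring
  have Fp : f (xi + τp, kf xi + τp * m) ≤ f (xi + δ, kf (xi + δ)) + (s * c - κ) * gp := by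
    rw [Ep]
    exact half_bound hf hloc T hs ht1 (by linarith) (hend s hs _ h1) hgp0.le hgpt.le
  have Fm : f (xi + τm, kf xi + τm * m) ≤ f (xi - δ, kf (xi - δ)) + (s * c - κ) * gm := by
    rw [Em]
    exact half_bound hf hloc T hs ht1 (by linarith) (hend s hs _ h2) hgm0.le hgmt.le
  -- combine
  have hUU : U e1 e2 (xi + δ) - U e1 e2 (xi - δ) = (τp - τm) * q := by
    have : U e1 e2 (xi + δ) - U e1 e2 (xi - δ)
      = (U e1 e2 (xi + δ) - U e1 e2 xi) + (U e1 e2 xi - U e1 e2 (xi - δ)) := by ring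
    rw [this, hUp, hUm]; ring
  rw [hUU, hUp, hUm, ← hgmin]
  generalize f (xi, kf xi) = A at *
  generalize f (xi + δ, kf (xi + δ)) = Bp at *
  generalize f (xi - δ, kf (xi - δ)) = Bm at *
  generalize f (xi + τp, kf xi + τp * m) = Qp at *
  generalize f (xi + τm, kf xi + τm * m) = Qm at *
  have main : (τp - τm) * (A - c * e1 * xi) ≤ τp * (Bm - c * e1 * (xi - δ))
      + (-τm) * (Bp - c * e1 * (xi + δ)) - κ * gmin * (τp - τm) := by
    have s1 : τp * Qm ≤ τp * (Bm + (s * c - κ) * gm) := mul_le_mul_of_nonneg_left Fm hτp0.le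
    have s2 : (-τm) * Qp ≤ (-τm) * (Bp + (s * c - κ) * gp) :=
      mul_le_mul_of_nonneg_left Fp (by linarith)
    have s3 : κ * gmin * τp ≤ κ * gm * τp := by
      apply mul_le_mul_of_nonneg_right _ hτp0.le
      exact mul_le_mul_of_nonneg_left hgm1 hκ.le
    have s4 : κ * gmin * (-τm) ≤ κ * gp * (-τm) := by
      apply mul_le_mul_of_nonneg_right _ (by linarith)
      exact mul_le_mul_of_nonneg_left hgp1 hκ.le
    -- linear part identity
    have lin : (τp - τm) * (c * e1 * xi) = τp * (c * e1 * (xi + τm)) + (-τm) * (c * e1 * (xi + τp)) := by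
      ring
    have l1 : c * e1 * (xi + τm) = c * e1 * (xi - δ) + s * c * gm := by
      rw [hτm]
      have : c * e1 * (xi + (-δ + s * gm * e1)) = c * e1 * (xi - δ) + s * c * gm * (e1 * e1) := by ring
      rw [this, hee, mul_one]
    have l2 : c * e1 * (xi + τp) = c * e1 * (xi + δ) + s * c * gp := by
      rw [hτp]
      have : c * e1 * (xi + (δ + s * gp * e1)) = c * e1 * (xi + δ) + s * c * gp * (e1 * e1) := by ring
      rw [this, hee, mul_one]
    rw [l1, l2] at lin
    linarith [seg, s1, s2, s3, s4, lin]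
  have := mul_le_mul_of_nonneg_right main hq0.le
  calc (τp - τm) * q * (A - c * e1 * xi) = (τp - τm) * (A - c * e1 * xi) * q := by ring
    _ ≤ _ := this
    _ = _ := by ring

end Pool.Agent.R634.CRem
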