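import Mathlib
import Pool.Agent.R634.CRem.Crossing

/-!
# The arc `K` is `c`-removable
-/

namespace Pool.Agent.R634.CRem

open Set Filter Topology

variable {e1 e2 c0 η x0 : ℝ}

/-- A continuous function that is locally convex off the arc has no concave kink at a transversal
crossing of the arc. -/
theorem crossing {f : ℝ × ℝ → ℝ} (hf : Continuous f) (hloc : LocallyConvexOn Kᶜ f)
    (T : Tr e1 e2 c0 η x0) : ∃ ε > 0, ∀ t : ℝ, 0 < t → t < ε →
      2 * f (x0, kf x0) ≤ f (x0 - t * e1, kf x0 - t * e2) + f (x0 + t * e1, kf x0 + t * e2) := by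
  by_contra hcon
  push Not at hcon
  have hη := T.hη
  have hc0 := T.hc0
  obtain ⟨t1, ht1, ht1η, hlt⟩ := hcon (η / 4) (by linarith)
  obtain ⟨Fp, hFp⟩ : ∃ F, F = f (x0 + t1 * e1, kf x0 + t1 * e2) := ⟨_, rfl⟩
  obtain ⟨Fm, hFm⟩ : ∃ F, F = f (x0 - t1 * e1, kf x0 - t1 * e2) := ⟨_, rfl⟩
  obtain ⟨F0, hF0⟩ : ∃ F, F = f (x0, kf x0) := ⟨_, rfl⟩
  rw [← hFp, ← hFm, ← hF0] at hlt
  obtain ⟨κ, hκdef⟩ : ∃ κ, κ = (2 * F0 - Fp - Fm) / (4 * t1) := ⟨_, rfl⟩
  obtain ⟨c, hcdef⟩ : ∃ c, c = (Fp - Fm) / (2 * t1) := ⟨_, rfl⟩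
  have hκ : 0 < κ := by rw [hκdef]; exact div_pos (by linarith) (by linarith)
  have hp : Fp = F0 + (c - 2 * κ) * t1 := by rw [hκdef, hcdef]; field_simp; ring
  have hm : Fm = F0 + (-c - 2 * κ) * t1 := by rw [hκdef, hcdef]; field_simp; ring
  -- continuity
  have hcont : ∀ s : ℝ, (s = 1 ∨ s = -1) → ∀ᶠ x in 𝓝 x0,
      f (x + s * t1 * e1, kf x + s * t1 * e2) < f (x, kf x) + (s * c - κ) * t1 := by
    intro s hs
    have h1 : Continuous (fun x : ℝ => f (x + s * t1 * e1, kf x + s * t1 * e2)) := by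
      apply hf.comp
      have := continuous_kf
      fun_prop
    have h2 : Continuous (fun x : ℝ => f (x, kf x) + (s * c - κ) * t1) := by
      apply Continuous.add _ continuous_const
      apply hf.comp
      have := continuous_kf
      fun_prop
    apply (isOpen_lt h1 h2).mem_nhds
    simp only [mem_ofPred_eq]
    have hκt : 0 < κ * t1 := mul_pos hκ ht1
    rcases hs with h | h
    · rw [h]
      have e : ((x0 + 1 * t1 * e1, kf x0 + 1 * t1 * e2) : ℝ × ℝ) = (x0 + t1 * e1, kf x0 + t1 * e2) := by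
        simp
      rw [e, ← hFp, ← hF0, hp]
      linarith
    · rw [h]
      have e : ((x0 + -1 * t1 * e1, kf x0 + -1 * t1 * e2) : ℝ × ℝ) = (x0 - t1 * e1, kf x0 - t1 * e2) := by
        rw [Prod.mk.injEq]; constructor <;> ring
      rw [e, ← hFm, ← hF0, hm]
      linarith
  have hboth := (hcont 1 (Or.inl rfl)).and (hcont (-1) (Or.inr rfl))
  rw [Metric.eventually_nhds_iff] at hboth
  obtain ⟨ρ1, hρ1, hb⟩ := hboth
  obtain ⟨ρ, hρdef⟩ : ∃ ρ, ρ = min ρ1 (η / 4) := ⟨_, rfl⟩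
  have hρ : 0 < ρ := by rw [hρdef]; exact lt_min hρ1 (by linarith)
  have hρ1' : ρ ≤ ρ1 := by rw [hρdef]; exact min_le_left _ _
  have hρη : ρ ≤ η / 4 := by rw [hρdef]; exact min_le_right _ _
  have hend : ∀ s : ℝ, (s = 1 ∨ s = -1) → ∀ x : ℝ, |x - x0| < ρ →
      f (x + s * t1 * e1, kf x + s * t1 * e2) ≤ f (x, kf x) + (s * c - κ) * t1 := by
    intro s hs x hx
    have := hb (y := x) (by rw [Real.dist_eq]; linarith)
    rcases hs with h | h
    · rw [h]; exact this.1.le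
    · rw [h]; exact this.2.le
  -- grid points
  obtain ⟨n0, hn0⟩ := exists_pow_lt_of_lt_one (show (0:ℝ) < ρ / 2 by linarith)
    (show (1 / 4 : ℝ) < 1 by norm_num)
  have h4n0 : (0:ℝ) < 4 ^ n0 := by positivity
  obtain ⟨i0, hi0⟩ : ∃ i : ℤ, i = ⌊x0 * 4 ^ n0⌋ := ⟨_, rfl⟩
  have hi1 : (i0:ℝ) ≤ x0 * 4 ^ n0 := by rw [hi0]; exact Int.floor_le _
  have hi2 : x0 * 4 ^ n0 < i0 + 1 := by rw [hi0]; exact Int.lt_floor_add_one _
  obtain ⟨d0, hd0⟩ : ∃ d : ℝ, d = 1 / 4 ^ n0 := ⟨_, rfl⟩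
  have hd0pos : 0 < d0 := by rw [hd0]; positivity
  have hd0ρ : 2 * d0 < ρ := by
    rw [hd0]
    have : (1 / 4 : ℝ) ^ n0 = 1 / 4 ^ n0 := by rw [one_div, inv_pow, one_div]
    rw [← this]; linarith
  obtain ⟨z, hz⟩ : ∃ z : ℝ, z = i0 / 4 ^ n0 := ⟨_, rfl⟩
  have hz1 : z ≤ x0 := by rw [hz, div_le_iff₀ h4n0]; exact hi1
  have hz2 : x0 < z + d0 := by
    rw [hz, hd0, ← add_div, lt_div_iff₀ h4n0]; exact hi2
  -- the transversal coordinate
  have hUmono : ∀ x y : ℝ, |x - x0| < ρ → |y - x0| < ρ → x < y → U e1 e2 x < U e1 e2 y := by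
    intro x y hx hy hxy
    have := T.hU x y (by linarith) (by linarith) hxy
    have h2 : 0 < c0 * (y - x) := mul_pos hc0 (by linarith)
    have e : e2 * (y - x) - e1 * (kf y - kf x) = U e1 e2 y - U e1 e2 x := by unfold U; ring
    rw [e] at this
    linarith
  have haρ : |z - d0 - x0| < ρ := by rw [abs_lt]; constructor <;> linarith
  have hzρ : |z - x0| < ρ := by rw [abs_lt]; constructor <;> linarith
  have hbρ : |z + d0 - x0| < ρ := by rw [abs_lt]; constructor <;> linarith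
  obtain ⟨Ua, hUa⟩ : ∃ u, u = U e1 e2 (z - d0) := ⟨_, rfl⟩
  obtain ⟨Uz, hUz⟩ : ∃ u, u = U e1 e2 z := ⟨_, rfl⟩
  obtain ⟨Ub, hUb⟩ : ∃ u, u = U e1 e2 (z + d0) := ⟨_, rfl⟩
  have hUaz : Ua < Uz := by rw [hUa, hUz]; exact hUmono _ _ haρ hzρ (by linarith)
  have hUzb : Uz < Ub := by rw [hUb, hUz]; exact hUmono _ _ hzρ hbρ (by linarith)
  obtain ⟨φ, hφ⟩ : ∃ φ : ℝ → ℝ, φ = fun x => f (x, kf x) - c * e1 * x := ⟨_, rfl⟩
  obtain ⟨R, hR⟩ : ∃ R, R = (Ub - Uz) * φ (z - d0) + (Uz - Ua) * φ (z + d0) - (Ub - Ua) * φ z := ⟨_, rfl⟩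
  obtain ⟨W, hW⟩ : ∃ W, W = (Ub - Ua) * (Ub - Uz) * (Uz - Ua) := ⟨_, rfl⟩
  have hW0 : 0 < W := by
    rw [hW]; exact mul_pos (mul_pos (by linarith) (by linarith)) (by linarith)
  obtain ⟨A, hA⟩ : ∃ A, A = (|R| + 1) / W := ⟨_, rfl⟩
  have hA0 : 0 < A := by rw [hA]; exact div_pos (by positivity) hW0
  have hAW : A * W = |R| + 1 := by rw [hA]; field_simp
  obtain ⟨C0, hC0⟩ : ∃ C, C = |e2| + 3 / 2 := ⟨_, rfl⟩
  have hC0pos : 0 < C0 := by rw [hC0]; positivity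
  -- choose the level
  have t4 : Tendsto (fun n : ℕ => (4:ℝ) ^ n) atTop atTop := tendsto_pow_atTop_atTop_of_one_lt (by norm_num)
  have t43 : Tendsto (fun n : ℕ => (4 / 3 : ℝ) ^ n) atTop atTop :=
    tendsto_pow_atTop_atTop_of_one_lt (by norm_num)
  obtain ⟨n, hn0n, hn4, hn43⟩ := ((eventually_ge_atTop n0).and
    ((t4.eventually_gt_atTop (3 / (c0 * t1))).and
      (t43.eventually_gt_atTop (2 * A * C0 ^ 3 / κ)))).exists
  have h4n : (0:ℝ) < 4 ^ n := by positivity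
  obtain ⟨δ, hδ⟩ : ∃ δ : ℝ, δ = 1 / 4 ^ n := ⟨_, rfl⟩
  have hδ0 : 0 < δ := by rw [hδ]; positivity
  have hδt : 3 * δ < c0 * t1 := by
    have hct : 0 < c0 * t1 := mul_pos hc0 ht1
    rw [div_lt_iff₀ hct] at hn4
    rw [hδ, mul_one_div, div_lt_iff₀ h4n]
    linarith
  obtain ⟨gmin, hgmin⟩ : ∃ g, g = 1 / 2 * (1 / 3 : ℝ) ^ n * δ / C0 := ⟨_, rfl⟩
  have hbig : A * (C0 * δ) * (C0 * δ) < κ * gmin := by
    rw [div_lt_iff₀ hκ] at hn43
    have e1' : (4 / 3 : ℝ) ^ n = (1 / 3) ^ n * 4 ^ n := by rw [← mul_pow]; norm_num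
    rw [e1'] at hn43
    rw [hgmin]
    have e2' : κ * (1 / 2 * (1 / 3 : ℝ) ^ n * δ / C0) - A * (C0 * δ) * (C0 * δ)
        = δ * δ / (2 * C0) * ((1 / 3 : ℝ) ^ n * 4 ^ n * κ - 2 * A * C0 ^ 3) := by
      have : (4:ℝ) ^ n = 1 / δ := by rw [hδ]; field_simp
      rw [this]
      field_simp
    have : 0 < κ * (1 / 2 * (1 / 3 : ℝ) ^ n * δ / C0) - A * (C0 * δ) * (C0 * δ) := by
      rw [e2']
      apply mul_pos (by positivity) (by linarith)
    linarith
  -- the index range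
  have hpow : (4:ℝ) ^ n = 4 ^ (n - n0) * 4 ^ n0 := by rw [← pow_add]; congr 1; omega
  obtain ⟨D, hD⟩ : ∃ D : ℤ → ℝ, D = fun i : ℤ =>
      (Ub - Ua) * (φ ((i:ℝ) / 4 ^ n) - A * (U e1 e2 ((i:ℝ) / 4 ^ n)) ^ 2)
      - (Ub - U e1 e2 ((i:ℝ) / 4 ^ n)) * (φ (z - d0) - A * Ua ^ 2)
      - (U e1 e2 ((i:ℝ) / 4 ^ n) - Ua) * (φ (z + d0) - A * Ub ^ 2) := ⟨_, rfl⟩
  have ea : (((i0 - 1) * 4 ^ (n - n0) : ℤ) : ℝ) / 4 ^ n = z - d0 := by
    rw [hpow, hz, hd0]; push_cast; field_simp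
  have eb : (((i0 + 1) * 4 ^ (n - n0) : ℤ) : ℝ) / 4 ^ n = z + d0 := by
    rw [hpow, hz, hd0]; push_cast; field_simp
  have ez : ((i0 * 4 ^ (n - n0) : ℤ) : ℝ) / 4 ^ n = z := by
    rw [hpow, hz]; push_cast; field_simp
  have hDa : D ((i0 - 1) * 4 ^ (n - n0)) ≤ 0 := by
    rw [hD]; simp only [ea]; rw [← hUa]; apply le_of_eq; ring
  have hDb : D ((i0 + 1) * 4 ^ (n - n0)) ≤ 0 := by
    rw [hD]; simp only [eb]; rw [← hUb]; apply le_of_eq; ring
  have hstep : ∀ i : ℤ, (i0 - 1) * 4 ^ (n - n0) < i → i < (i0 + 1) * 4 ^ (n - n0) →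
      ∃ w w' : ℝ, 0 < w ∧ 0 < w' ∧ (w + w') * D i < w * D (i - 1) + w' * D (i + 1) := by
    intro i hia hib
    obtain ⟨xi, hxi⟩ : ∃ x : ℝ, x = i / 4 ^ n := ⟨_, rfl⟩
    have exm : ((i - 1 : ℤ) : ℝ) / 4 ^ n = xi - δ := by rw [hxi, hδ]; push_cast; ring
    have exp' : ((i + 1 : ℤ) : ℝ) / 4 ^ n = xi + δ := by rw [hxi, hδ]; push_cast; ring
    have hlo : z - d0 ≤ xi - δ := by
      rw [← ea, ← exm]
      apply div_le_div_of_nonneg_right _ h4n.le
      exact_mod_cast (by omega : (i0 - 1) * 4 ^ (n - n0) ≤ i - 1)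
    have hhi : xi + δ ≤ z + d0 := by
      rw [← eb, ← exp']
      apply div_le_div_of_nonneg_right _ h4n.le
      exact_mod_cast (by omega : i + 1 ≤ (i0 + 1) * 4 ^ (n - n0))
    have h1 : |xi + δ - x0| < ρ := by rw [abs_lt]; constructor <;> linarith
    have h2 : |xi - δ - x0| < ρ := by rw [abs_lt]; constructor <;> linarith
    have h0 : |xi - x0| < ρ := by rw [abs_lt]; constructor <;> linarith
    have TI := tip_ineq hf hloc T hκ ht1 ht1η hρη hend n i hδ hxi hδt h1 h2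
    rw [← hC0, ← hgmin] at TI
    have up := T.upper (x := xi) (y := xi + δ) (by linarith)
    have um := T.upper (x := xi - δ) (y := xi) (by linarith)
    rw [← hC0] at up um
    have eup : e2 * (xi + δ - xi) - e1 * (kf (xi + δ) - kf xi) = U e1 e2 (xi + δ) - U e1 e2 xi := by
      unfold U; ring
    have eum : e2 * (xi - (xi - δ)) - e1 * (kf xi - kf (xi - δ)) = U e1 e2 xi - U e1 e2 (xi - δ) := by
      unfold U; ring
    rw [eup] at up
    rw [eum] at um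
    have mp := hUmono xi (xi + δ) h0 h1 (by linarith)
    have mm := hUmono (xi - δ) xi h2 h0 (by linarith)
    refine ⟨U e1 e2 (xi + δ) - U e1 e2 xi, U e1 e2 xi - U e1 e2 (xi - δ), by linarith, by linarith, ?_⟩
    rw [hD]
    simp only [exm, exp', ← hxi]
    have ph0 : φ xi = f (xi, kf xi) - c * e1 * xi := by rw [hφ]
    have php : φ (xi + δ) = f (xi + δ, kf (xi + δ)) - c * e1 * (xi + δ) := by rw [hφ]
    have phm : φ (xi - δ) = f (xi - δ, kf (xi - δ)) - c * e1 * (xi - δ) := by rw [hφ]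
    rw [← ph0, ← php, ← phm] at TI
    generalize φ xi = p0 at *
    generalize φ (xi + δ) = pp at *
    generalize φ (xi - δ) = pm at *
    generalize φ (z - d0) = pa at *
    generalize φ (z + d0) = pb at *
    generalize U e1 e2 (xi + δ) = up' at *
    generalize U e1 e2 (xi - δ) = um' at *
    generalize U e1 e2 xi = ui' at *
    have hBA : 0 < Ub - Ua := by linarith
    have q1 : (up' - ui') * (ui' - um') ≤ (C0 * δ) * (C0 * δ) := by
      apply mul_le_mul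
      · calc up' - ui' ≤ C0 * (xi + δ - xi) := up
          _ = C0 * δ := by ring
      · calc ui' - um' ≤ C0 * (xi - (xi - δ)) := um
          _ = C0 * δ := by ring
      · linarith
      · positivity
    have q2 : A * ((up' - ui') * (ui' - um')) < κ * gmin := by
      have := mul_le_mul_of_nonneg_left q1 hA0.le
      linarith
    have q3 : 0 < (Ub - Ua) * (up' - um') * (κ * gmin - A * ((up' - ui') * (ui' - um'))) := by
      apply mul_pos (mul_pos hBA (by linarith)) (by linarith)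
    have q4 : 0 ≤ (Ub - Ua) * ((up' - ui') * pm + (ui' - um') * pp - κ * gmin * (up' - um')
        - (up' - um') * p0) := by
      apply mul_nonneg hBA.le
      linarith
    have q5 : (up' - ui') * ((Ub - Ua) * (pm - A * um' ^ 2) - (Ub - um') * (pa - A * Ua ^ 2)
          - (um' - Ua) * (pb - A * Ub ^ 2))
        + (ui' - um') * ((Ub - Ua) * (pp - A * up' ^ 2) - (Ub - up') * (pa - A * Ua ^ 2)
          - (up' - Ua) * (pb - A * Ub ^ 2))
        - ((up' - ui') + (ui' - um')) * ((Ub - Ua) * (p0 - A * ui' ^ 2) - (Ub - ui') * (pa - A * Ua ^ 2)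
          - (ui' - Ua) * (pb - A * Ub ^ 2))
        = (Ub - Ua) * (up' - um') * (κ * gmin - A * ((up' - ui') * (ui' - um')))
          + (Ub - Ua) * ((up' - ui') * pm + (ui' - um') * pp - κ * gmin * (up' - um')
            - (up' - um') * p0) := by
      ring
    linarith
  have hN : (0:ℤ) < 4 ^ (n - n0) := by positivity
  have hfin := discrete_max hDa hDb hstep (i0 * 4 ^ (n - n0)) (by nlinarith) (by nlinarith)
  rw [hD] at hfin
  simp only [ez] at hfin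
  rw [← hUz] at hfin
  -- contradiction
  have e9 : (Ub - Ua) * (φ z - A * Uz ^ 2) - (Ub - Uz) * (φ (z - d0) - A * Ua ^ 2)
      - (Uz - Ua) * (φ (z + d0) - A * Ub ^ 2) = A * W - R := by
    rw [hW, hR]; ring
  rw [e9, hAW] at hfin
  have := le_abs_self R
  linarith

end Pool.Agent.R634.CRem
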