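import Mathlib
import Pool.Agent.R634.CRem.Main

/-!
# The arc `K` is `c`-removable: conclusion
-/

namespace Pool.Agent.R634.CRem

open Set Filter Topology

lemma line_chord {f : ℝ × ℝ → ℝ} (hf : Continuous f) (hloc : LocallyConvexOn Kᶜ f)
    {m c : ℝ} {n : ℕ} (hm : ∀ σ ∈ V n, 3 / 2 * (1 / 3) ^ n < |σ - m|)
    (hc : ∀ l : ℕ, ∀ j : ℤ, kf (j / 4 ^ l) ≠ m * (j / 4 ^ l) + c)
    {a b t : ℝ} (ht : t ∈ Icc a b) :
    (b - a) * f (t, m * t + c) ≤ (b - t) * f (a, m * a + c) + (t - a) * f (b, m * b + c) := by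
  have hcont : Continuous (fun t : ℝ => f (t, m * t + c)) := by
    apply hf.comp
    fun_prop
  refine chord_of_midpoint (g := fun t : ℝ => f (t, m * t + c)) hcont.continuousOn ?_ ht
  intro t _ _
  by_cases hK : ((t, m * t + c) : ℝ × ℝ) ∈ K
  · have hkt : m * t + c = kf t := hK.2
    have hgrid : ∀ l < n, ∀ j : ℤ, (4:ℝ) ^ l * t ≠ j := by
      intro l _ j hj
      have : t = j / 4 ^ l := by rw [← hj]; field_simp
      apply hc l j
      rw [← this, hkt]
    obtain ⟨s, c', η, hs, hc', hη, hch⟩ := chord_sep hm hgrid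
    have T : Tr s (s * m) c' η t := by
      refine ⟨hs, hc', hη, fun x y hx hy hxy => ?_⟩
      exact hch x y hx hy hxy
    obtain ⟨ε, hε, h⟩ := crossing hf hloc T
    refine ⟨ε, hε, fun r hr hrε => ?_⟩
    have h1 := h r hr hrε
    rw [← hkt] at h1
    have ea : ((t - r, m * (t - r) + c) : ℝ × ℝ) = (t - r * 1, m * t + c - r * (1 * m)) := by
      rw [Prod.mk.injEq]; constructor <;> ring
    have eb : ((t + r, m * (t + r) + c) : ℝ × ℝ) = (t + r * 1, m * t + c + r * (1 * m)) := by
      rw [Prod.mk.injEq]; constructor <;> ring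
    show 2 * f (t, m * t + c) ≤ f (t - r, m * (t - r) + c) + f (t + r, m * (t + r) + c)
    rcases hs with h' | h'
    · rw [h'] at h1
      rw [ea, eb]
      exact h1
    · rw [h'] at h1
      have ec : ((t - r * -1, m * t + c - r * (-1 * m)) : ℝ × ℝ) = (t + r * 1, m * t + c + r * (1 * m)) := by
        rw [Prod.mk.injEq]; constructor <;> ring
      have ed : ((t + r * -1, m * t + c + r * (-1 * m)) : ℝ × ℝ) = (t - r * 1, m * t + c - r * (1 * m)) := by
        rw [Prod.mk.injEq]; constructor <;> ring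
      rw [ec, ed] at h1
      rw [ea, eb]
      linarith
  · obtain ⟨ε, hε, h⟩ := midpoint_of_loc hloc hK 1 m
    refine ⟨ε, hε, fun r hr hrε => ?_⟩
    have h1 := h r hr hrε
    have ea : ((t - r, m * (t - r) + c) : ℝ × ℝ) = (t - r * 1, m * t + c - r * m) := by
      rw [Prod.mk.injEq]; constructor <;> ring
    have eb : ((t + r, m * (t + r) + c) : ℝ × ℝ) = (t + r * 1, m * t + c + r * m) := by
      rw [Prod.mk.injEq]; constructor <;> ring
    show 2 * f (t, m * t + c) ≤ f (t - r, m * (t - r) + c) + f (t + r, m * (t + r) + c)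
    rw [ea, eb]
    exact h1

lemma nonneg_of_dense {h : ℝ → ℝ} (hh : Continuous h) {S : Set ℝ} (hS : Dense S)
    (hpos : ∀ x ∈ S, 0 ≤ h x) (x : ℝ) : 0 ≤ h x := by
  have h1 : closure S ⊆ {x | 0 ≤ h x} := closure_minimal hpos (isClosed_le continuous_const hh)
  exact h1 (hS x)

/-- The two-point inequality on lines `y = m x + c`. -/
lemma two_point {f : ℝ × ℝ → ℝ} (hf : Continuous f) (hloc : LocallyConvexOn Kᶜ f)
    {a b x1 x2 : ℝ} (ha : 0 ≤ a) (hb : 0 ≤ b) (hab : a + b = 1) (hx : x1 ≠ x2) (m c : ℝ) :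
    0 ≤ a * f (x1, m * x1 + c) + b * f (x2, m * x2 + c)
      - f (a * x1 + b * x2, m * (a * x1 + b * x2) + c) := by
  -- good slopes and good offsets
  have key : ∀ m : ℝ, (∃ n : ℕ, 1 ≤ n ∧ ∀ σ ∈ V n, 3 / 2 * (1 / 3) ^ n < |σ - m|) → ∀ c : ℝ,
      0 ≤ a * f (x1, m * x1 + c) + b * f (x2, m * x2 + c)
        - f (a * x1 + b * x2, m * (a * x1 + b * x2) + c) := by
    rintro m ⟨n, -, hm⟩
    have hcount : (Set.range (fun p : ℕ × ℤ => kf ((p.2:ℝ) / 4 ^ p.1) - m * ((p.2:ℝ) / 4 ^ p.1))).Countable :=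
      Set.countable_range _
    have hdense := hcount.dense_compl ℝ
    apply nonneg_of_dense _ hdense
    · intro c hc
      have hc' : ∀ l : ℕ, ∀ j : ℤ, kf (j / 4 ^ l) ≠ m * (j / 4 ^ l) + c := by
        intro l j h
        apply hc
        refine ⟨(l, j), ?_⟩
        show kf ((j:ℝ) / 4 ^ l) - m * ((j:ℝ) / 4 ^ l) = c
        rw [h]; ring
      rcases lt_or_gt_of_ne hx with h | h
      · have e1 : x2 - (a * x1 + b * x2) = a * (x2 - x1) := by
          have : b = 1 - a := by linarith
          rw [this]; ring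
        have e2 : a * x1 + b * x2 - x1 = b * (x2 - x1) := by
          have : a = 1 - b := by linarith
          rw [this]; ring
        have n1 : 0 ≤ a * (x2 - x1) := mul_nonneg ha (by linarith)
        have n2 : 0 ≤ b * (x2 - x1) := mul_nonneg hb (by linarith)
        have := line_chord hf hloc hm hc' (a := x1) (b := x2) (t := a * x1 + b * x2)
          ⟨by linarith, by linarith⟩
        rw [e1, e2] at this
        have h2 : (x2 - x1) * f (a * x1 + b * x2, m * (a * x1 + b * x2) + c)
            ≤ (x2 - x1) * (a * f (x1, m * x1 + c) + b * f (x2, m * x2 + c)) := by linarith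
        have := le_of_mul_le_mul_left h2 (by linarith)
        linarith
      · have e1 : x1 - (a * x1 + b * x2) = b * (x1 - x2) := by
          have : a = 1 - b := by linarith
          rw [this]; ring
        have e2 : a * x1 + b * x2 - x2 = a * (x1 - x2) := by
          have : b = 1 - a := by linarith
          rw [this]; ring
        have n1 : 0 ≤ b * (x1 - x2) := mul_nonneg hb (by linarith)
        have n2 : 0 ≤ a * (x1 - x2) := mul_nonneg ha (by linarith)
        have := line_chord hf hloc hm hc' (a := x2) (b := x1) (t := a * x1 + b * x2)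
          ⟨by linarith, by linarith⟩
        rw [e1, e2] at this
        have h2 : (x1 - x2) * f (a * x1 + b * x2, m * (a * x1 + b * x2) + c)
            ≤ (x1 - x2) * (a * f (x1, m * x1 + c) + b * f (x2, m * x2 + c)) := by linarith
        have := le_of_mul_le_mul_left h2 (by linarith)
        linarith
    · apply Continuous.sub
      · apply Continuous.add
        · exact continuous_const.mul (hf.comp (by fun_prop))
        · exact continuous_const.mul (hf.comp (by fun_prop))
      · exact hf.comp (by fun_prop)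
  have hdense : Dense {m : ℝ | ∃ n : ℕ, 1 ≤ n ∧ ∀ σ ∈ V n, 3 / 2 * (1 / 3) ^ n < |σ - m|} := by
    apply dense_of_exists_between
    intro p q hpq
    obtain ⟨m, h1, h2, n, hn, h3⟩ := exists_slope hpq
    exact ⟨m, ⟨n, hn, h3⟩, h1, h2⟩
  refine nonneg_of_dense (h := fun m => a * f (x1, m * x1 + c) + b * f (x2, m * x2 + c)
      - f (a * x1 + b * x2, m * (a * x1 + b * x2) + c)) ?_ hdense (fun m hm => key m hm c) m
  apply Continuous.sub
  · apply Continuous.add
    · exact continuous_const.mul (hf.comp (by fun_prop))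
    · exact continuous_const.mul (hf.comp (by fun_prop))
  · exact hf.comp (by fun_prop)

lemma two_point' {f : ℝ × ℝ → ℝ} (hf : Continuous f) (hloc : LocallyConvexOn Kᶜ f)
    {a b : ℝ} (ha : 0 ≤ a) (hb : 0 ≤ b) (hab : a + b = 1) {x1 x2 : ℝ} (hx : x1 ≠ x2) (y1 y2 : ℝ) :
    0 ≤ a * f (x1, y1) + b * f (x2, y2) - f (a * x1 + b * x2, a * y1 + b * y2) := by
  have hne : x2 - x1 ≠ 0 := sub_ne_zero.mpr (Ne.symm hx)
  have h := two_point hf hloc ha hb hab hx ((y2 - y1) / (x2 - x1)) (y1 - (y2 - y1) / (x2 - x1) * x1)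
  have e1 : (y2 - y1) / (x2 - x1) * x1 + (y1 - (y2 - y1) / (x2 - x1) * x1) = y1 := by ring
  have e2 : (y2 - y1) / (x2 - x1) * x2 + (y1 - (y2 - y1) / (x2 - x1) * x1) = y2 := by
    field_simp
    ring
  have e3 : (y2 - y1) / (x2 - x1) * (a * x1 + b * x2) + (y1 - (y2 - y1) / (x2 - x1) * x1)
      = a * y1 + b * y2 := by
    have : (y2 - y1) / (x2 - x1) * (a * x1 + b * x2) + (y1 - (y2 - y1) / (x2 - x1) * x1)
      = a * ((y2 - y1) / (x2 - x1) * x1 + (y1 - (y2 - y1) / (x2 - x1) * x1))
        + b * ((y2 - y1) / (x2 - x1) * x2 + (y1 - (y2 - y1) / (x2 - x1) * x1))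
        + (1 - (a + b)) * (y1 - (y2 - y1) / (x2 - x1) * x1) := by ring
    rw [this, e1, e2, hab]
    ring
  rw [e1, e2, e3] at h
  exact h

theorem cRemovable_K : CRemovable K := by
  refine ⟨isCompact_K.isClosed, fun f hf hloc => ⟨convex_univ, ?_⟩⟩
  rintro ⟨x1, y1⟩ - ⟨x2, y2⟩ - a b ha hb hab
  simp only [Prod.smul_mk, Prod.mk_add_mk, smul_eq_mul]
  by_cases hx : x1 = x2
  · have hc : Continuous (fun t : ℝ => a * f (x1 + t, y1) + b * f (x2, y2)
        - f (a * (x1 + t) + b * x2, a * y1 + b * y2)) := by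
      apply Continuous.sub
      · apply Continuous.add
        · exact continuous_const.mul (hf.comp (by fun_prop))
        · exact continuous_const
      · exact hf.comp (by fun_prop)
    have h := nonneg_of_dense hc (dense_compl_singleton (0:ℝ)) (fun t ht => by
      have ht' : t ≠ 0 := ht
      exact two_point' hf hloc ha hb hab (by rw [hx]; intro h; apply ht'; linarith) y1 y2) 0
    simp only [add_zero] at h
    linarith
  · have := two_point' hf hloc ha hb hab hx y1 y2
    linarith

end Pool.Agent.R634.CRem
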